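import Pool.Agent.Lib.MP_4322ef_CH.Mg.G008

/-!
# The convex hull conjecture for complex groups: definitions, fourth part

The complex reductive Lie algebras whose simple ideals are classical.
-/

set_option autoImplicit false

open scoped InnerProductSpace

namespace Pool.Agent.Lib.MP_4322ef_CH

open Pool.Agent.Lib.MP_4322ef_al.SR

variable {g : Type} [NormedAddCommGroup g] [InnerProductSpace ℝ g]

/-- `c` is an antilinear isometry with `c² = e = ± 1`, so that `⟪c x, y⟫` is a symmetric (`e = 1`) or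
alternating (`e = -1`) bilinear form; `g` acts by operators which are skew for this form, and the form
is not symmetric in dimension two. -/
structure IsForm {L : RedLie g} {J : CStr L} {E : Type} [NormedAddCommGroup E] [InnerProductSpace ℂ E]
    (s : CRep J E) (c : E →ₗ⋆[ℂ] E) (e : ℝ) : Prop where
  sgn : e = 1 ∨ e = -1
  sq : ∀ x, c (c x) = (e : ℂ) • x
  iso : ∀ x y, ⟪c x, c y⟫_ℂ = ⟪y, x⟫_ℂ
  inv : ∀ A x y, ⟪c (s.op A x), y⟫_ℂ = -⟪c x, s.op A y⟫_ℂ
  dim : e = 1 → Module.finrank ℂ E ≠ 2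

/-- Every simple ideal of `g` is classical: `g` has representations `s 1, …, s m` with a central common
kernel, and the image under `s k` of the ideal on which the other `s j` vanish contains `sl(E k)`, or
it is `so(E k)` or `sp(E k)`. -/
def ClassicalLie {L : RedLie g} (J : CStr L) : Prop :=
  ∃ (m : ℕ) (E : Fin m → Type) (_ : ∀ k, NormedAddCommGroup (E k))
    (_ : ∀ k, InnerProductSpace ℂ (E k)) (_ : ∀ k, FiniteDimensional ℂ (E k))
    (s : ∀ k, CRep J (E k)), (∀ A, (∀ k, (s k).op A = 0) → ∀ B, L.br A B = 0) ∧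
    ∀ k, (∀ T : E k →ₗ[ℂ] E k, LinearMap.trace ℂ (E k) T = 0 →
        ∃ A, (s k).op A = T ∧ ∀ j, j ≠ k → (s j).op A = 0) ∨
      ∃ c e, IsForm (s k) c e ∧ ∀ T : E k →ₗ[ℂ] E k, (∀ x y, ⟪c (T x), y⟫_ℂ = -⟪c x, T y⟫_ℂ) →
        ∃ A, (s k).op A = T ∧ ∀ j, j ≠ k → (s j).op A = 0

end Pool.Agent.Lib.MP_4322ef_CH
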