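import Pool.Agent.Lib.MP_4322ef_CE.Mg.G003
import Pool.Agent.Lib.MP_4322ef_CH.Mg.G002
import Pool.Agent.Lib.MP_4322ef_CH.Mg.G008

/-!
# The natural representation

`q = ⟪ep i, ep i⟫`. `P04_onb`: an orthonormal basis of weight vectors, as `G01_onb` in file G01 (store: MP_4322ef_CH_G01.lean,
complete; it may be imported). `bcd_orth`: for each `i` the weight `σ i • ep i` is extreme in `E`, so its weight space is
one-dimensional (`hw_mult`; `high_hw'` in K01 gives the highest weight vector of `IsExt`); some basis vector has this weight (a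
weight vector is orthogonal to all basis vectors of other weights) and only one (two orthonormal vectors in a one-dimensional
space): call it `k i`. Fields of `Orth` for `K = image k univ`: `len`, `orth` from `BCD`; `neg`: `w j` is a weight of `E`, so it is
`0` or `τ • ep l` (`IsWt` from `WV` by `t.lin`), `⟪σ i • ep i, τ • ep l⟫ = σ i τ ⟪ep i, ep l⟫` is `0` for `l ≠ i`, and for `l = i` it is `± q`,
where `+ q` means `w j = σ i • ep i = w (k i)`, so `j = k i`; `inj` as above; `ext`: `e (k i)` is a multiple of the highest weight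
vector; `root` from `BCD.root`.
-/

set_option autoImplicit false

open scoped InnerProductSpace

namespace Pool.Agent.Lib.MP_4322ef_CH

open Pool.Agent.Lib.MP_4322ef_al.SR

variable {g : Type} [NormedAddCommGroup g] [InnerProductSpace ℝ g] {L : RedLie g}
  [FiniteDimensional ℝ g]

variable {J : CStr L} {E : Type} [NormedAddCommGroup E] [InnerProductSpace ℂ E]
  [FiniteDimensional ℂ E]

omit [FiniteDimensional ℝ g] in
theorem bcd_inner {a : Submodule ℝ g} {m n : ℕ} {ep : Fin n → g} (h : BCD L a m ep)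
    {σ : Fin n → ℝ} (hσ : ∀ i, |σ i| = 1) {q : ℝ} (hq : ∀ i, ⟪ep i, ep i⟫_ℝ = q) (i j : Fin n) :
    ⟪σ i • ep i, σ j • ep j⟫_ℝ = if i = j then q else 0 := by
  rw [real_inner_smul_left, real_inner_smul_right]
  split_ifs with hij
  · subst hij
    rw [hq, ← mul_assoc, ← abs_mul_abs_self, hσ, mul_one, one_mul]
  · rw [h.orth i j hij, mul_zero, mul_zero]

theorem bcd_orth (C : CSub L) {m n : ℕ} {ep : Fin n → g} (h : BCD L C.a m ep) {s : CRep J E}
    (hs : NatMod C.a s ep) {σ : Fin n → ℝ} (hσ : ∀ i, |σ i| = 1) (q : ℝ)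
    (hq : ∀ i, ⟪ep i, ep i⟫_ℝ = q) (hq0 : 0 < q) :
    ∃ (N : ℕ) (e : OrthonormalBasis (Fin N) ℂ E) (w : Fin N → g) (k : Fin n → Fin N),
      Function.Injective k ∧ (∀ i, w (k i) = σ i • ep i) ∧
        Orth C s e w (Finset.univ.image k) q := by
  classical
  obtain ⟨N, e, w, hw⟩ := G01_onb C s
  have hne : ∀ j, e j ≠ 0 := by
    intro j h0
    have h1 := e.norm_eq_one j
    rw [h0, norm_zero] at h1
    exact zero_ne_one h1
  have hext : ∀ i, ∃ H₁ v, Reg L C.a H₁ ∧ HW s C.a H₁ (σ i • ep i) v := fun i => by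
    obtain ⟨H₁, hH₁, h1⟩ := hs.ext i (σ i) (hσ i)
    obtain ⟨v, hv⟩ := high_hw' s C h1
    exact ⟨H₁, v, hH₁, hv⟩
  choose H₁ v hH₁ hv using hext
  have hk : ∀ i, ∃ k, w k = σ i • ep i := by
    intro i
    by_contra hcon
    push Not at hcon
    apply (hv i).ne
    rw [← e.sum_repr' (v i)]
    exact Finset.sum_eq_zero fun k _ => by
      rw [wt_orth s C (hw k).1 (hv i).mem (hw k).2 (hv i).wt (hcon k), zero_smul]
  choose k hk using hk
  have huniq : ∀ i j, w j = σ i • ep i → j = k i := by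
    intro i j hj
    by_contra hne'
    obtain ⟨c, hc⟩ := hw_mult s C hs.irr (hH₁ i) (hv i) (u := e j) (hj ▸ (hw j).2)
    obtain ⟨c', hc'⟩ := hw_mult s C hs.irr (hH₁ i) (hv i) (u := e (k i)) (hk i ▸ (hw (k i)).2)
    have h1 : ⟪e j, e (k i)⟫_ℂ = 0 := e.orthonormal.2 hne'
    rw [hc, hc', inner_smul_left, inner_smul_right] at h1
    have hc0 : c ≠ 0 := by
      rintro rfl
      exact hne j (by rw [hc, zero_smul])
    have hc0' : c' ≠ 0 := by
      rintro rfl
      exact hne (k i) (by rw [hc', zero_smul])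
    rcases mul_eq_zero.1 h1 with h2 | h2
    · exact hc0 ((map_eq_zero _).1 h2)
    · rcases mul_eq_zero.1 h2 with h3 | h3
      · exact hc0' h3
      · exact (hv i).ne (inner_self_eq_zero.1 h3)
  have hin := bcd_inner h hσ hq
  have hinj : Function.Injective k := by
    intro i j hij
    by_contra hne'
    have h1 : σ i • ep i = σ j • ep j := by rw [← hk i, ← hk j, hij]
    have h2 := hin i j
    rw [if_neg hne', ← h1, hin i i, if_pos rfl] at h2
    exact hq0.ne' h2
  have hwt : ∀ j, w j = 0 ∨ ∃ i, ∃ τ : ℝ, |τ| = 1 ∧ w j = τ • ep i := by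
    intro j
    refine hs.wt _ ⟨(hw j).1, e j, trivial, hne j, fun H hH => ?_⟩
    rw [s.lin, LinearMap.smul_apply, (hw j).2 H hH, smul_smul]
  refine ⟨N, e, w, k, hinj, hk, ?_⟩
  have hm : ∀ i, i ∈ Finset.univ.image k → ∃ l, k l = i := fun i hi => by
    obtain ⟨l, -, hl⟩ := Finset.mem_image.1 hi
    exact ⟨l, hl⟩
  refine ⟨fun i => (hw i).1, fun i => (hw i).2, hq0, ?_, ?_, ?_, ?_, ?_, ?_⟩
  · intro i hi
    obtain ⟨l, rfl⟩ := hm i hi
    rw [hk, hin, if_pos rfl]
  · intro i hi j hj hij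
    obtain ⟨l, rfl⟩ := hm i hi
    obtain ⟨l', rfl⟩ := hm j hj
    rw [hk, hk, hin, if_neg fun h => hij (by rw [h])]
  · intro i hi j hj
    obtain ⟨l, rfl⟩ := hm i hi
    rcases hwt j with h1 | ⟨l', τ, hτ, h1⟩
    · rw [h1, inner_zero_right]
    · rw [hk, h1]
      by_cases hl : l' = l
      · subst hl
        rw [real_inner_smul_left, real_inner_smul_right, hq]
        rcases abs_eq_abs.1 (hτ.trans (hσ l').symm) with h2 | h2
        · exfalso
          apply hj
          rw [Finset.mem_image]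
          exact ⟨l', Finset.mem_univ _, (huniq l' j (by rw [h1, h2])).symm⟩
        · have h3 : σ l' * σ l' = 1 := by rw [← abs_mul_abs_self, hσ, mul_one]
          rw [h2, neg_mul, mul_neg, ← mul_assoc, h3, one_mul]
          linarith
      · rw [real_inner_smul_left, real_inner_smul_right, h.orth l l' (Ne.symm hl), mul_zero,
          mul_zero]
  · intro i hi j hj
    obtain ⟨l, rfl⟩ := hm i hi
    exact huniq l j (by rw [hj, hk])
  · intro i hi
    obtain ⟨l, rfl⟩ := hm i hi
    obtain ⟨c, hc⟩ := hw_mult s C hs.irr (hH₁ l) (hv l) (u := e (k l)) (hk l ▸ (hw (k l)).2)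
    refine ⟨H₁ l, hH₁ l, (hw _).1, hne _, (hw _).2, fun Z hZ => ?_⟩
    rw [hc, map_smul, (hv l).pos Z hZ, smul_zero]
  · intro i hi j hj hij
    obtain ⟨l, rfl⟩ := hm i hi
    obtain ⟨l', rfl⟩ := hm j hj
    refine h.root_mem _ (Or.inl ⟨l, l', σ l, -σ l', fun h => hij (by rw [h]), hσ l, by rw [abs_neg, hσ], ?_⟩)
    rw [hk, hk, neg_smul, sub_eq_add_neg]

end Pool.Agent.Lib.MP_4322ef_CH
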