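import Pool.Agent.Lib.MP_4322ef_CH.Mg.G008
import Pool.Agent.Lib.MP_4322ef_CH.Mg.G002
import Pool.Agent.Lib.MP_4322ef_CH.Mg.G003

/-!
# Roots and weights of type `B`, `C`, `D`

`q = ⟪ep i, ep i⟫`, `y = ∑ i ∈ I, σ i • ep i`. `⟪y, ep i⟫ = σ i q` for `i ∈ I`, `0` for `i ∉ I`.
* `bcd_two`: for `al = σ' ep i + τ' ep j`, `⟪al, al⟫ = 2 q`, `|⟪y, al⟫| ≤ 2 q`; for `al = σ' ep i`, `|σ'| = m`: `⟪al, al⟫ = m² q`,
  `|⟪y, al⟫| ≤ m q`.
* `bcd_spin_mins`: the same with `½ ∑ i, σ i • ep i` and `m ≤ 1`.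
* `P06_vc` (like `vc_pos` in R02, whose proof shows: the positive roots `β` with `sr al β` positive cancel in pairs, the others
  have `0 < ⟪β, al⟫`): for distinct `al`, `β₁`, `β₂` in `P` which are positive on `c` while `sr al β₁`, `sr al β₂` are negative on `c`,
  `⟪al, al⟫ + ⟪β₁, al⟫ + ⟪β₂, al⟫ ≤ ⟪vc P c, al⟫`.
* `bcd_fund`: let `H₁` be regular, `y` dominant, `al` a positive root. If a root `β` has `0 < ⟪β, y⟫` then `β` is positive (otherwise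
  `-β` is). By `exists_P` the right side is `⟪vc P H₁, al⟫`. If `2 ⟪y, al⟫ ≤ ⟪al, al⟫` use `vc_pos`. Otherwise, with `δ i = σ i • ep i`:
  (1) `al = δ i + δ j`, `i ≠ j`, `i, j ∈ I` (`⟪y, al⟫ = 2 q`, `⟪al, al⟫ = 2 q`; to show `4 q ≤ ⟪vc, al⟫`). `m = 2`: `β = 2 δ i, 2 δ j`
      (`sr al (2 δ i) = -2 δ j`), `⟪β, al⟫ = 2 q`. `m = 1`: `β = δ i, δ j`, `⟪β, al⟫ = q`. `m = 0`: `c ∉ I`, `β = δ i + ep c, δ i - ep c`
      (`sr al β = ± ep c - δ j`), `⟪β, al⟫ = q`.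
  (2) `m = 1`, `al = δ i`, `i ∈ I` (`⟪y, al⟫ = q = ⟪al, al⟫`; to show `2 q ≤ ⟪vc, al⟫`): `c ∉ I`, `β = δ i + ep c, δ i - ep c`,
      `⟪β, al⟫ = q`.
  (`m = 2`, `al = 2 δ i`: `⟪y, al⟫ = 2 q`, `⟪al, al⟫ = 4 q`: fine.) All these `β` have `0 < ⟪β, y⟫` and `-sr al β` has too.
-/

set_option autoImplicit false

open scoped InnerProductSpace

namespace Pool.Agent.Lib.MP_4322ef_CH

open Pool.Agent.Lib.MP_4322ef_al.SR

theorem P06_vc {E : Type} [NormedAddCommGroup E] [InnerProductSpace ℝ E] {P : Finset E}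
    (hP : RSys P) {c al β₁ β₂ : E} (h : al ∈ P) (h0 : 0 < ⟪al, c⟫_ℝ) (h₁ : β₁ ∈ P) (h₂ : β₂ ∈ P)
    (p₁ : 0 < ⟪β₁, c⟫_ℝ) (p₂ : 0 < ⟪β₂, c⟫_ℝ) (n₁ : ⟪sr al β₁, c⟫_ℝ < 0) (n₂ : ⟪sr al β₂, c⟫_ℝ < 0)
    (d₁ : β₁ ≠ al) (d₂ : β₂ ≠ al) (d : β₁ ≠ β₂) :
    ⟪al, al⟫_ℝ + ⟪β₁, al⟫_ℝ + ⟪β₂, al⟫_ℝ ≤ ⟪vc P c, al⟫_ℝ := by
  classical
  have hal := hP.ne al h
  have hpos : 0 < ⟪al, al⟫_ℝ := real_inner_self_pos.mpr hal
  unfold vc
  rw [sum_inner, ← Finset.sum_filter_add_sum_filter_not _ (fun be => 0 < ⟪sr al be, c⟫_ℝ)]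
  have hA : ∑ be ∈ (P.filter (fun al => 0 < ⟪al, c⟫_ℝ)).filter (fun be => 0 < ⟪sr al be, c⟫_ℝ),
      ⟪be, al⟫_ℝ = 0 := by
    have h1 : ∑ be ∈ (P.filter (fun al => 0 < ⟪al, c⟫_ℝ)).filter (fun be => 0 < ⟪sr al be, c⟫_ℝ),
        ⟪be, al⟫_ℝ =
        -∑ be ∈ (P.filter (fun al => 0 < ⟪al, c⟫_ℝ)).filter (fun be => 0 < ⟪sr al be, c⟫_ℝ),
        ⟪be, al⟫_ℝ := by
      rw [← Finset.sum_neg_distrib]
      refine Finset.sum_bij' (fun be _ => sr al be) (fun be _ => sr al be) ?_ ?_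
        (fun be _ => sr_sr hal be) (fun be _ => sr_sr hal be) ?_
      · intro be hb
        rw [Finset.mem_filter, Finset.mem_filter] at hb ⊢
        exact ⟨⟨hP.refl al h be hb.1.1, hb.2⟩, by rw [sr_sr hal]; exact hb.1.2⟩
      · intro be hb
        rw [Finset.mem_filter, Finset.mem_filter] at hb ⊢
        exact ⟨⟨hP.refl al h be hb.1.1, hb.2⟩, by rw [sr_sr hal]; exact hb.1.2⟩
      · intro be _
        rw [sr_inner, sr_self hal, inner_neg_right, neg_neg]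
    linarith
  have hB0 : ∀ be ∈ (P.filter (fun al => 0 < ⟪al, c⟫_ℝ)).filter (fun be => ¬0 < ⟪sr al be, c⟫_ℝ),
      0 ≤ ⟪be, al⟫_ℝ := by
    intro be hb
    rw [Finset.mem_filter, Finset.mem_filter, not_lt] at hb
    by_contra hneg
    rw [not_le] at hneg
    have h2 := hb.2
    unfold sr at h2
    rw [inner_sub_left, real_inner_smul_left] at h2
    have h3 : 2 * ⟪be, al⟫_ℝ / ⟪al, al⟫_ℝ * ⟪al, c⟫_ℝ < 0 :=
      mul_neg_of_neg_of_pos (div_neg_of_neg_of_pos (by linarith) hpos) h0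
    linarith [hb.1.2]
  have hsub : ({al, β₁, β₂} : Finset E) ⊆
      (P.filter (fun al => 0 < ⟪al, c⟫_ℝ)).filter (fun be => ¬0 < ⟪sr al be, c⟫_ℝ) := by
    intro x hx
    rw [Finset.mem_insert, Finset.mem_insert, Finset.mem_singleton] at hx
    rw [Finset.mem_filter, Finset.mem_filter, not_lt]
    rcases hx with rfl | rfl | rfl
    · refine ⟨⟨h, h0⟩, ?_⟩
      rw [sr_self hal, inner_neg_left]
      linarith
    · exact ⟨⟨h₁, p₁⟩, n₁.le⟩
    · exact ⟨⟨h₂, p₂⟩, n₂.le⟩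
  have hB := Finset.sum_le_sum_of_subset_of_nonneg (f := fun be => ⟪be, al⟫_ℝ) hsub
    (fun be hb _ => hB0 be hb)
  have h3 : ∑ be ∈ ({al, β₁, β₂} : Finset E), ⟪be, al⟫_ℝ =
      ⟪al, al⟫_ℝ + ⟪β₁, al⟫_ℝ + ⟪β₂, al⟫_ℝ := by
    rw [Finset.sum_insert, Finset.sum_insert, Finset.sum_singleton, add_assoc]
    · rw [Finset.mem_singleton]
      exact d
    · rw [Finset.mem_insert, Finset.mem_singleton, not_or]
      exact ⟨d₁.symm, d₂.symm⟩
  rw [hA, zero_add, ← h3]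
  exact hB

variable {g : Type} [NormedAddCommGroup g] [InnerProductSpace ℝ g] {L : RedLie g}

/-- the pairing of `ep j` with `∑ i ∈ I, σ i • ep i` -/
theorem P06_in {a : Submodule ℝ g} {m n : ℕ} {ep : Fin n → g} (h : BCD L a m ep) (σ : Fin n → ℝ)
    (I : Finset (Fin n)) (j : Fin n) :
    ⟪ep j, ∑ i ∈ I, σ i • ep i⟫_ℝ = (if j ∈ I then σ j else 0) * ⟪ep j, ep j⟫_ℝ := by
  rw [inner_sum]
  have h1 : ∀ i ∈ I, ⟪ep j, σ i • ep i⟫_ℝ = if j = i then σ j * ⟪ep j, ep j⟫_ℝ else 0 := by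
    intro i _
    rw [real_inner_smul_right]
    split_ifs with hij
    · rw [hij]
    · rw [h.orth j i hij, mul_zero]
  rw [Finset.sum_congr rfl h1, Finset.sum_ite_eq]
  split_ifs
  · rfl
  · rw [zero_mul]

theorem P06_qpos {a : Submodule ℝ g} {m n : ℕ} {ep : Fin n → g} (h : BCD L a m ep) (j : Fin n) :
    0 < ⟪ep j, ep j⟫_ℝ := real_inner_self_pos.2 (h.ne j)

theorem P06_abs {n : ℕ} {σ : Fin n → ℝ} (hσ : ∀ i, |σ i| = 1) (I : Finset (Fin n)) (j : Fin n) :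
    |(if j ∈ I then σ j else 0)| ≤ 1 := by
  split_ifs
  · exact (hσ j).le
  · rw [abs_zero]
    exact zero_le_one

theorem P06_sq {s : ℝ} (hs : |s| = 1) : s * s = 1 := by
  rw [← abs_mul_abs_self, hs, one_mul]

theorem P06_mul_le {s t : ℝ} (hs : |s| = 1) (ht : |t| ≤ 1) : |s * t| ≤ 1 := by
  rw [abs_mul, hs, one_mul]
  exact ht

theorem P06_ort {n : ℕ} {ep : Fin n → g} {al : g} (hort : ∀ i, ⟪ep i, al⟫_ℝ = 0)
    (σ : Fin n → ℝ) (I : Finset (Fin n)) : ⟪al, ∑ i ∈ I, σ i • ep i⟫_ℝ = 0 := by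
  rw [inner_sum]
  refine Finset.sum_eq_zero fun i _ => ?_
  rw [real_inner_smul_right, real_inner_comm, hort, mul_zero]

theorem bcd_two {a : Submodule ℝ g} {m n : ℕ} {ep : Fin n → g} (h : BCD L a m ep) {σ : Fin n → ℝ}
    (hσ : ∀ i, |σ i| = 1) (I : Finset (Fin n)) :
    ∀ al ∈ roots L a, |⟪∑ i ∈ I, σ i • ep i, al⟫_ℝ| ≤ ⟪al, al⟫_ℝ := by
  intro al hal
  rw [real_inner_comm]
  rcases h.root al hal with (⟨i, j, s, t, hij, hs, ht, rfl⟩ | ⟨i, s, hm, hs, rfl⟩) | hort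
  rotate_right
  · rw [P06_ort hort, abs_zero]
    exact real_inner_self_nonneg
  · have hq := P06_qpos h i
    have e1 : ⟪s • ep i + t • ep j, s • ep i + t • ep j⟫_ℝ = 2 * ⟪ep i, ep i⟫_ℝ := by
      rw [inner_add_left, inner_add_right, inner_add_right, real_inner_smul_left,
        real_inner_smul_left, real_inner_smul_left, real_inner_smul_left, real_inner_smul_right,
        real_inner_smul_right, real_inner_smul_right, real_inner_smul_right, h.orth i j hij,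
        h.orth j i (Ne.symm hij), h.len j i]
      linear_combination ⟪ep i, ep i⟫_ℝ * P06_sq hs + ⟪ep i, ep i⟫_ℝ * P06_sq ht
    rw [e1, inner_add_left, real_inner_smul_left, real_inner_smul_left, P06_in h, P06_in h,
      h.len j i, ← mul_assoc, ← mul_assoc, ← add_mul, abs_mul, abs_of_pos hq]
    refine mul_le_mul_of_nonneg_right ?_ hq.le
    refine (abs_add_le _ _).trans ?_
    linarith [P06_mul_le hs (P06_abs hσ I i), P06_mul_le ht (P06_abs hσ I j)]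
  · have hq := P06_qpos h i
    have hm1 : (1 : ℝ) ≤ m := by exact_mod_cast Nat.one_le_iff_ne_zero.2 hm
    rw [real_inner_smul_left, real_inner_smul_left, real_inner_smul_right, P06_in h, ← mul_assoc,
      ← mul_assoc, abs_mul, abs_of_pos hq, ← abs_mul_abs_self, hs, abs_mul, hs]
    refine mul_le_mul_of_nonneg_right ?_ hq.le
    have h1 := P06_abs hσ I i
    nlinarith [abs_nonneg (if i ∈ I then σ i else 0)]

theorem bcd_spin_mins {a : Submodule ℝ g} {m n : ℕ} {ep : Fin n → g} (h : BCD L a m ep)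
    (hm : m ≠ 2) {σ : Fin n → ℝ} (hσ : ∀ i, |σ i| = 1) :
    Mins L a ((1 / 2 : ℝ) • ∑ i, σ i • ep i) := by
  intro al hal
  have h1 := bcd_two h hσ Finset.univ al hal
  rw [real_inner_smul_left, abs_mul, abs_of_pos (by norm_num : (0 : ℝ) < 1 / 2)]
  linarith

/-- a root which is positive on the dominant `y` is positive -/
theorem P06_pos (C : CSub L) {y H₁ β : g} (hR : Reg L C.a H₁)
    (hdom : ∀ α ∈ roots L C.a, 0 < ⟪α, H₁⟫_ℝ → 0 ≤ ⟪α, y⟫_ℝ) (hβ : β ∈ roots L C.a)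
    (h : 0 < ⟪β, y⟫_ℝ) : 0 < ⟪β, H₁⟫_ℝ := by
  rcases lt_or_gt_of_ne (hR.2 β hβ) with h1 | h1
  · have h2 := hdom (-β) (roots_neg C hβ) (by rw [inner_neg_left]; linarith)
    rw [inner_neg_left] at h2
    linarith
  · exact h1

/-- the easy case -/
theorem P06_easy [FiniteDimensional ℝ g] (C : CSub L) {y H₁ al : g} (hR : Reg L C.a H₁)
    (hal : al ∈ roots L C.a) (hp : 0 < ⟪al, H₁⟫_ℝ) (h : 2 * ⟪y, al⟫_ℝ ≤ ⟪al, al⟫_ℝ) :
    2 * ⟪y, al⟫_ℝ ≤ ∑ᶠ β ∈ {β | β ∈ roots L C.a ∧ 0 < ⟪β, H₁⟫_ℝ}, ⟪β, al⟫_ℝ := by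
  obtain ⟨P, hP, hm, -, hv, -⟩ := exists_P C
  have h1 : ⟪(⟨al, hal.1⟩ : C.a), (⟨al, hal.1⟩ : C.a)⟫_ℝ ≤
      ⟪vc P (⟨H₁, hR.1⟩ : C.a), (⟨al, hal.1⟩ : C.a)⟫_ℝ := vc_pos hP ((hm _).2 hal) hp
  have h2 := hv ⟨H₁, hR.1⟩ ⟨al, hal.1⟩
  rw [h2] at h1
  exact h.trans h1

/-- the case of two more roots -/
theorem P06_core [FiniteDimensional ℝ g] (C : CSub L) {y H₁ al β₁ β₂ : g} {b : ℝ}
    (hR : Reg L C.a H₁) (hdom : ∀ α ∈ roots L C.a, 0 < ⟪α, H₁⟫_ℝ → 0 ≤ ⟪α, y⟫_ℝ)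
    (hal : al ∈ roots L C.a) (hp : 0 < ⟪al, H₁⟫_ℝ) (hA : ⟪al, y⟫_ℝ = ⟪al, al⟫_ℝ)
    (h₁ : β₁ ∈ roots L C.a) (h₂ : β₂ ∈ roots L C.a) (hb : 0 < b) (y₁ : ⟪β₁, y⟫_ℝ = b)
    (y₂ : ⟪β₂, y⟫_ℝ = b) (a₁ : ⟪β₁, al⟫_ℝ = b) (a₂ : ⟪β₂, al⟫_ℝ = b) (d₁ : β₁ ≠ al)
    (d₂ : β₂ ≠ al) (d : β₁ ≠ β₂) (hle : ⟪al, al⟫_ℝ ≤ 2 * b) :
    2 * ⟪y, al⟫_ℝ ≤ ∑ᶠ β ∈ {β | β ∈ roots L C.a ∧ 0 < ⟪β, H₁⟫_ℝ}, ⟪β, al⟫_ℝ := by
  obtain ⟨P, hP, hm, -, hv, -⟩ := exists_P C
  have hpos : 0 < ⟪al, al⟫_ℝ := real_inner_self_pos.mpr hal.2.1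
  have key : ∀ β ∈ roots L C.a, ⟪β, y⟫_ℝ = b → ⟪β, al⟫_ℝ = b →
      0 < ⟪β, H₁⟫_ℝ ∧ ⟪sr al β, H₁⟫_ℝ < 0 := by
    intro β hβ e1 e2
    refine ⟨P06_pos C hR hdom hβ (by rw [e1]; exact hb), ?_⟩
    have e3 : ⟪sr al β, y⟫_ℝ = -b := by
      unfold sr
      rw [inner_sub_left, real_inner_smul_left, e1, e2, hA]
      field_simp
      ring
    have e4 := P06_pos C hR hdom (roots_neg C (roots_refl C hal hβ))
      (by rw [inner_neg_left, e3]; linarith)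
    rw [inner_neg_left] at e4
    linarith
  obtain ⟨p₁, n₁⟩ := key β₁ h₁ y₁ a₁
  obtain ⟨p₂, n₂⟩ := key β₂ h₂ y₂ a₂
  have h1 : ⟪(⟨al, hal.1⟩ : C.a), (⟨al, hal.1⟩ : C.a)⟫_ℝ +
      ⟪(⟨β₁, h₁.1⟩ : C.a), (⟨al, hal.1⟩ : C.a)⟫_ℝ + ⟪(⟨β₂, h₂.1⟩ : C.a), (⟨al, hal.1⟩ : C.a)⟫_ℝ ≤
      ⟪vc P (⟨H₁, hR.1⟩ : C.a), (⟨al, hal.1⟩ : C.a)⟫_ℝ :=
    P06_vc hP ((hm _).2 hal) hp ((hm _).2 h₁) ((hm _).2 h₂) p₁ p₂ n₁ n₂
      (fun e => d₁ (congrArg Subtype.val e)) (fun e => d₂ (congrArg Subtype.val e))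
      (fun e => d (congrArg Subtype.val e))
  have h2 := hv ⟨H₁, hR.1⟩ ⟨al, hal.1⟩
  rw [h2] at h1
  have h3 : ⟪al, al⟫_ℝ + ⟪β₁, al⟫_ℝ + ⟪β₂, al⟫_ℝ ≤
      ∑ᶠ β ∈ {β | β ∈ roots L C.a ∧ 0 < ⟪β, H₁⟫_ℝ}, ⟪β, al⟫_ℝ := h1
  rw [a₁, a₂] at h3
  rw [real_inner_comm, hA]
  linarith

/-- `s = ±1`, `t = ±1` or `0`, `1 / 2 < s t` -/
theorem P06_eq {n : ℕ} {σ : Fin n → ℝ} (hσ : ∀ i, |σ i| = 1) (I : Finset (Fin n)) (j : Fin n) {s : ℝ}
    (hs : |s| = 1) (h : 0 < s * (if j ∈ I then σ j else 0)) : j ∈ I ∧ s = σ j := by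
  by_cases hj : j ∈ I
  · rw [if_pos hj] at h
    refine ⟨hj, ?_⟩
    rcases (abs_eq zero_le_one).1 hs with rfl | rfl <;>
      rcases (abs_eq zero_le_one).1 (hσ j) with e | e <;> rw [e] at h ⊢ <;> norm_num at h
  · rw [if_neg hj, mul_zero] at h
    exact absurd h (lt_irrefl _)

theorem bcd_fund [FiniteDimensional ℝ g] (C : CSub L) {m n : ℕ} {ep : Fin n → g}
    (h : BCD L C.a m ep) {σ : Fin n → ℝ} (hσ : ∀ i, |σ i| = 1) {I : Finset (Fin n)}
    (hI : m = 2 ∨ ∃ c, c ∉ I) : Fund L C.a (∑ i ∈ I, σ i • ep i) := by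
  intro H₁ hR hdom al hal hp
  by_cases hle : 2 * ⟪∑ i ∈ I, σ i • ep i, al⟫_ℝ ≤ ⟪al, al⟫_ℝ
  · exact P06_easy C hR hal hp hle
  rw [not_le, real_inner_comm al (∑ i ∈ I, σ i • ep i)] at hle
  rcases h.root al hal with (⟨i, j, s, t, hij, hs, ht, rfl⟩ | ⟨i, s, hm, hs, rfl⟩) | hort
  rotate_right
  · rw [P06_ort hort, mul_zero] at hle
    exact absurd hle (not_lt.2 real_inner_self_nonneg)
  · have hq := P06_qpos h i
    have e1 : ⟪s • ep i + t • ep j, s • ep i + t • ep j⟫_ℝ = 2 * ⟪ep i, ep i⟫_ℝ := by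
      rw [inner_add_left, inner_add_right, inner_add_right, real_inner_smul_left,
        real_inner_smul_left, real_inner_smul_left, real_inner_smul_left, real_inner_smul_right,
        real_inner_smul_right, real_inner_smul_right, real_inner_smul_right, h.orth i j hij,
        h.orth j i (Ne.symm hij), h.len j i]
      linear_combination ⟪ep i, ep i⟫_ℝ * P06_sq hs + ⟪ep i, ep i⟫_ℝ * P06_sq ht
    have e2 : ⟪s • ep i + t • ep j, ∑ i ∈ I, σ i • ep i⟫_ℝ =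
        (s * (if i ∈ I then σ i else 0) + t * (if j ∈ I then σ j else 0)) * ⟪ep i, ep i⟫_ℝ := by
      rw [inner_add_left, real_inner_smul_left, real_inner_smul_left, P06_in h, P06_in h,
        h.len j i]
      ring
    have hlt : 1 < s * (if i ∈ I then σ i else 0) + t * (if j ∈ I then σ j else 0) := by
      rw [e1, e2] at hle
      nlinarith
    have b1 := P06_mul_le hs (P06_abs hσ I i)
    have b2 := P06_mul_le ht (P06_abs hσ I j)
    obtain ⟨hi, rfl⟩ := P06_eq hσ I i hs (by linarith [(abs_le.1 b2).2])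
    obtain ⟨hj, rfl⟩ := P06_eq hσ I j ht (by linarith [(abs_le.1 b1).2])
    have hA : ⟪σ i • ep i + σ j • ep j, ∑ i ∈ I, σ i • ep i⟫_ℝ =
        ⟪σ i • ep i + σ j • ep j, σ i • ep i + σ j • ep j⟫_ℝ := by
      rw [e1, e2, if_pos hi, if_pos hj, P06_sq hs, P06_sq ht]
      ring
    by_cases hm : m = 0
    · obtain ⟨c, hc⟩ : ∃ c, c ∉ I := by
        rcases hI with h2 | h2
        · omega
        · exact h2
      have hci : c ≠ i := fun e => hc (e ▸ hi)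
      have hcj : c ≠ j := fun e => hc (e ▸ hj)
      have key : ∀ r : ℝ, |r| = 1 → (σ i • ep i + r • ep c ∈ roots L C.a ∧
          ⟪σ i • ep i + r • ep c, ∑ i ∈ I, σ i • ep i⟫_ℝ = ⟪ep i, ep i⟫_ℝ ∧
          ⟪σ i • ep i + r • ep c, σ i • ep i + σ j • ep j⟫_ℝ = ⟪ep i, ep i⟫_ℝ ∧
          ⟪σ i • ep i + r • ep c, ep c⟫_ℝ = r * ⟪ep i, ep i⟫_ℝ) := by
        intro r hr
        refine ⟨h.root_mem _ (Or.inl ⟨i, c, σ i, r, hci.symm, hs, hr, rfl⟩), ?_, ?_, ?_⟩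
        · rw [inner_add_left, real_inner_smul_left, real_inner_smul_left, P06_in h, P06_in h,
            if_pos hi, if_neg hc]
          linear_combination ⟪ep i, ep i⟫_ℝ * P06_sq hs
        · rw [inner_add_left, inner_add_right, inner_add_right, real_inner_smul_left,
            real_inner_smul_left, real_inner_smul_left, real_inner_smul_left,
            real_inner_smul_right, real_inner_smul_right, real_inner_smul_right,
            real_inner_smul_right, h.orth i j hij, h.orth c i hci, h.orth c j hcj]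
          linear_combination ⟪ep i, ep i⟫_ℝ * P06_sq hs
        · rw [inner_add_left, real_inner_smul_left, real_inner_smul_left, h.orth i c hci.symm,
            h.len c i]
          ring
      obtain ⟨k1, k2, k3, k4⟩ := key 1 (by norm_num)
      obtain ⟨l1, l2, l3, l4⟩ := key (-1) (by norm_num)
      have e5 : ⟪σ i • ep i + σ j • ep j, ep c⟫_ℝ = 0 := by
        rw [inner_add_left, real_inner_smul_left, real_inner_smul_left, h.orth i c hci.symm,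
          h.orth j c hcj.symm]
        ring
      refine P06_core C hR hdom hal hp hA k1 l1 hq k2 l2 k3 l3 ?_ ?_ ?_ (by rw [e1])
      · intro e
        rw [e, e5] at k4
        linarith
      · intro e
        rw [e, e5] at l4
        linarith
      · intro e
        rw [e, l4] at k4
        linarith
    · have hm1 : (1 : ℝ) ≤ m := by exact_mod_cast Nat.one_le_iff_ne_zero.2 hm
      have key : ∀ k ∈ I, |σ k| = 1 → ⟪ep k, ep k⟫_ℝ = ⟪ep i, ep i⟫_ℝ →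
          ((m : ℝ) * σ k) • ep k ∈ roots L C.a ∧
          ⟪((m : ℝ) * σ k) • ep k, ∑ i ∈ I, σ i • ep i⟫_ℝ = m * ⟪ep i, ep i⟫_ℝ ∧
          ⟪((m : ℝ) * σ k) • ep k, ep k⟫_ℝ = m * σ k * ⟪ep i, ep i⟫_ℝ := by
        intro k hk h1 h2
        refine ⟨h.root_mem _ (Or.inr ⟨k, m * σ k, hm, ?_, rfl⟩), ?_, ?_⟩
        · rw [abs_mul, h1, mul_one, abs_of_nonneg (by positivity)]
        · rw [real_inner_smul_left, P06_in h, if_pos hk, h2]
          linear_combination m * ⟪ep i, ep i⟫_ℝ * P06_sq h1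
        · rw [real_inner_smul_left, h2]
      obtain ⟨k1, k2, k4⟩ := key i hi hs rfl
      obtain ⟨l1, l2, l4⟩ := key j hj ht (h.len j i)
      have k3 : ⟪((m : ℝ) * σ i) • ep i, σ i • ep i + σ j • ep j⟫_ℝ = m * ⟪ep i, ep i⟫_ℝ := by
        rw [inner_add_right, real_inner_smul_left, real_inner_smul_left, real_inner_smul_right,
          real_inner_smul_right, h.orth i j hij]
        linear_combination m * ⟪ep i, ep i⟫_ℝ * P06_sq hs
      have l3 : ⟪((m : ℝ) * σ j) • ep j, σ i • ep i + σ j • ep j⟫_ℝ = m * ⟪ep i, ep i⟫_ℝ := by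
        rw [inner_add_right, real_inner_smul_left, real_inner_smul_left, real_inner_smul_right,
          real_inner_smul_right, h.orth j i hij.symm, h.len j i]
        linear_combination m * ⟪ep i, ep i⟫_ℝ * P06_sq ht
      have e5 : ⟪σ i • ep i + σ j • ep j, ep j⟫_ℝ = σ j * ⟪ep i, ep i⟫_ℝ := by
        rw [inner_add_left, real_inner_smul_left, real_inner_smul_left, h.orth i j hij, h.len j i]
        ring
      have e6 : ⟪σ i • ep i + σ j • ep j, ep i⟫_ℝ = σ i * ⟪ep i, ep i⟫_ℝ := by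
        rw [inner_add_left, real_inner_smul_left, real_inner_smul_left, h.orth j i hij.symm]
        ring
      have e7 : ⟪((m : ℝ) * σ i) • ep i, ep j⟫_ℝ = 0 := by
        rw [real_inner_smul_left, h.orth i j hij, mul_zero]
      have e8 : ⟪((m : ℝ) * σ j) • ep j, ep i⟫_ℝ = 0 := by
        rw [real_inner_smul_left, h.orth j i hij.symm, mul_zero]
      have z1 : σ i * ⟪ep i, ep i⟫_ℝ ≠ 0 := by
        refine mul_ne_zero (fun e => ?_) hq.ne'
        rw [e, abs_zero] at hs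
        exact zero_ne_one hs
      have z2 : σ j * ⟪ep i, ep i⟫_ℝ ≠ 0 := by
        refine mul_ne_zero (fun e => ?_) hq.ne'
        rw [e, abs_zero] at ht
        exact zero_ne_one ht
      refine P06_core C hR hdom hal hp hA k1 l1 (by positivity) k2 l2 k3 l3 ?_ ?_ ?_ ?_
      · intro e
        rw [e, e5] at e7
        exact z2 e7
      · intro e
        rw [e, e6] at e8
        exact z1 e8
      · intro e
        rw [e, e8] at k4
        have : (m : ℝ) * (σ i * ⟪ep i, ep i⟫_ℝ) = 0 := by linarith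
        rcases mul_eq_zero.1 this with h0 | h0
        · linarith
        · exact z1 h0
      · rw [e1]
        nlinarith
  · have hq := P06_qpos h i
    have hm1 : (1 : ℝ) ≤ m := by exact_mod_cast Nat.one_le_iff_ne_zero.2 hm
    have e1 : ⟪s • ep i, s • ep i⟫_ℝ = (m : ℝ) * m * ⟪ep i, ep i⟫_ℝ := by
      rw [real_inner_smul_left, real_inner_smul_right, ← mul_assoc, ← abs_mul_abs_self, hs]
    have e2 : ⟪s • ep i, ∑ i ∈ I, σ i • ep i⟫_ℝ =
        (s * (if i ∈ I then σ i else 0)) * ⟪ep i, ep i⟫_ℝ := by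
      rw [real_inner_smul_left, P06_in h]
      ring
    rw [e1, e2] at hle
    have hle2 : (m : ℝ) * m < 2 * (s * (if i ∈ I then σ i else 0)) := by
      by_contra hcon
      rw [not_lt] at hcon
      nlinarith
    have hb : s * (if i ∈ I then σ i else 0) ≤ m := by
      have h1 : |s * (if i ∈ I then σ i else 0)| ≤ m := by
        rw [abs_mul, hs]
        nlinarith [P06_abs hσ I i, abs_nonneg (if i ∈ I then σ i else 0)]
      exact (abs_le.1 h1).2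
    have hm2 : (m : ℝ) < 2 := by
      by_contra hcon
      rw [not_lt] at hcon
      nlinarith
    have hm3 : m = 1 := by
      have : m < 2 := by exact_mod_cast hm2
      omega
    subst hm3
    obtain ⟨c, hc⟩ : ∃ c, c ∉ I := by
      rcases hI with h2 | h2
      · omega
      · exact h2
    rw [Nat.cast_one] at hs e1 hle2
    obtain ⟨hi, rfl⟩ := P06_eq hσ I i hs (by linarith)
    have hci : c ≠ i := fun e => hc (e ▸ hi)
    have hA : ⟪σ i • ep i, ∑ i ∈ I, σ i • ep i⟫_ℝ = ⟪σ i • ep i, σ i • ep i⟫_ℝ := by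
      rw [e1, e2, if_pos hi, P06_sq hs]
      ring
    have key : ∀ r : ℝ, |r| = 1 → (σ i • ep i + r • ep c ∈ roots L C.a ∧
        ⟪σ i • ep i + r • ep c, ∑ i ∈ I, σ i • ep i⟫_ℝ = ⟪ep i, ep i⟫_ℝ ∧
        ⟪σ i • ep i + r • ep c, σ i • ep i⟫_ℝ = ⟪ep i, ep i⟫_ℝ ∧
        ⟪σ i • ep i + r • ep c, ep c⟫_ℝ = r * ⟪ep i, ep i⟫_ℝ) := by
      intro r hr
      refine ⟨h.root_mem _ (Or.inl ⟨i, c, σ i, r, hci.symm, hs, hr, rfl⟩), ?_, ?_, ?_⟩
      · rw [inner_add_left, real_inner_smul_left, real_inner_smul_left, P06_in h, P06_in h,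
          if_pos hi, if_neg hc]
        linear_combination ⟪ep i, ep i⟫_ℝ * P06_sq hs
      · rw [inner_add_left, real_inner_smul_left, real_inner_smul_left,
          real_inner_smul_right, real_inner_smul_right, h.orth c i hci]
        linear_combination ⟪ep i, ep i⟫_ℝ * P06_sq hs
      · rw [inner_add_left, real_inner_smul_left, real_inner_smul_left, h.orth i c hci.symm,
          h.len c i]
        ring
    obtain ⟨k1, k2, k3, k4⟩ := key 1 (by norm_num)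
    obtain ⟨l1, l2, l3, l4⟩ := key (-1) (by norm_num)
    have e5 : ⟪σ i • ep i, ep c⟫_ℝ = 0 := by
      rw [real_inner_smul_left, h.orth i c hci.symm, mul_zero]
    refine P06_core C hR hdom hal hp hA k1 l1 hq k2 l2 k3 l3 ?_ ?_ ?_ (by rw [e1]; linarith)
    · intro e
      rw [e, e5] at k4
      linarith
    · intro e
      rw [e, e5] at l4
      linarith
    · intro e
      rw [e, l4] at k4
      linarith

end Pool.Agent.Lib.MP_4322ef_CH
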