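import Pool.Agent.Lib.MP_4322ef_CP.P09
import Pool.Agent.Lib.MP_4322ef_CP.P07
import Pool.Agent.Lib.MP_4322ef_CP.G02

/-!
# Classical groups
-/

set_option autoImplicit false

open scoped InnerProductSpace

namespace Pool.Agent.Lib.MP_4322ef_CH

open Pool.Agent.Lib.MP_4322ef_al.SR

variable {g : Type} [NormedAddCommGroup g] [InnerProductSpace ℝ g] {L : RedLie g}

/-- in type `B` a weight is integral or half-integral -/
theorem bcd_int_half {a : Submodule ℝ g} {n : ℕ} {ep : Fin n → g} (h : BCD L a 1 ep) {x : g}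
    (hint : ∀ al ∈ roots L a, ∃ k : ℤ, 2 * ⟪x, al⟫_ℝ = k * ⟪al, al⟫_ℝ) :
    (∀ i, ∃ k : ℤ, ⟪x, ep i⟫_ℝ = k * ⟪ep i, ep i⟫_ℝ) ∨
      ∀ i, ∃ k : ℤ, ⟪x, ep i⟫_ℝ = (k + 1 / 2) * ⟪ep i, ep i⟫_ℝ := by
  obtain ⟨q, hq0, hq⟩ := bcd_q h
  have h1 : ∀ i, ∃ k : ℤ, 2 * ⟪x, ep i⟫_ℝ = k * q := by
    intro i
    obtain ⟨k, hk⟩ := hint (ep i) (h.root_mem _ (Or.inr ⟨i, 1, one_ne_zero, by simp, by simp⟩))
    exact ⟨k, by rw [hk, hq]⟩
  choose k hk using h1
  have h2 : ∀ i j, i ≠ j → ∃ l : ℤ, k i + k j = 2 * l := by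
    intro i j hij
    obtain ⟨l, hl⟩ := hint (ep i + ep j)
      (h.root_mem _ (Or.inl ⟨i, j, 1, 1, hij, by simp, by simp, by simp⟩))
    refine ⟨l, ?_⟩
    have h3 : ⟪ep i + ep j, ep i + ep j⟫_ℝ = 2 * q := by
      rw [inner_add_left, inner_add_right, inner_add_right, hq, hq, h.orth i j hij,
        h.orth j i hij.symm]
      ring
    rw [h3, inner_add_right] at hl
    have h4 : q * ((k i : ℝ) + k j - 2 * l) = 0 := by
      have := hk i
      have := hk j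
      linarith
    rcases mul_eq_zero.1 h4 with h5 | h5
    · exact absurd h5 hq0.ne'
    · have h6 : ((k i + k j - 2 * l : ℤ) : ℝ) = 0 := by
        push_cast
        exact h5
      have h7 : (k i + k j - 2 * l : ℤ) = 0 := by exact_mod_cast h6
      omega
  by_cases he : ∀ i, Even (k i)
  · left
    intro i
    obtain ⟨l, hl⟩ := he i
    refine ⟨l, ?_⟩
    have h3 := hk i
    rw [hl] at h3
    push_cast at h3
    rw [hq]
    linarith
  · right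
    push Not at he
    obtain ⟨i₀, hi₀⟩ := he
    rw [Int.not_even_iff_odd] at hi₀
    intro i
    have hodd : Odd (k i) := by
      by_cases hi : i = i₀
      · rw [hi]
        exact hi₀
      · obtain ⟨l, hl⟩ := h2 i i₀ hi
        obtain ⟨l', hl'⟩ := hi₀
        exact ⟨l - l' - 1, by omega⟩
    obtain ⟨l, hl⟩ := hodd
    refine ⟨l, ?_⟩
    have h3 := hk i
    rw [hl] at h3
    push_cast at h3
    rw [hq]
    linarith

/-- for factors of type `B`, `C`, `D` all weights needed are good -/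
theorem bcd_good [FiniteDimensional ℝ g] {X : Type} [NormedAddCommGroup X]
    [InnerProductSpace ℂ X] {J : CStr L} (C : CSub L) (r : HC L X) {V₀ : Submodule ℂ X}
    (hV₀ : IsKType L r.op V₀) {mu : g} (hmu : IsExt J C.a r.op V₀ mu) {m n : ℕ} {ep : Fin n → g}
    (h : BCD L C.a m ep) {E : Type} [NormedAddCommGroup E] [InnerProductSpace ℂ E]
    [FiniteDimensional ℂ E] {s : CRep J E} (hs : NatMod C.a s ep)
    (hspin : m ≠ 2 → ∀ σ : Fin n → ℝ, (∀ i, |σ i| = 1) → ∃ (Y : Type) (_ : NormedAddCommGroup Y)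
      (_ : InnerProductSpace ℂ Y) (_ : FiniteDimensional ℂ Y) (p : CRep J Y), Irr p ∧
        IsExt J C.a p.op ⊤ ((1 / 2 : ℝ) • ∑ i, σ i • ep i)) {H : g} (hH : Reg L C.a H) :
    ∃ S : Finset g, GenR L C.a ep H S ∧ ∀ y ∈ S, Good J C.a r.op V₀ mu y := by
  obtain ⟨S, hS, hy⟩ := bcd_gen h hH
  refine ⟨S, hS, fun y hyS => ?_⟩
  rcases hy y hyS with ⟨σ, I, hσ, hI, hc, rfl⟩ | ⟨hm, σ, hσ, rfl⟩
  · obtain ⟨Y, j1, j2, j3, p, hp, hpe⟩ := bcd_rep C h hs hσ I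
    refine ⟨Y, j1, j2, j3, p, hp, hpe, Or.inr ⟨bcd_fund C h hσ hc, Or.inr ?_⟩⟩
    by_cases hm : m = 1
    · subst hm
      have hint : ∀ al ∈ roots L C.a, ∃ k : ℤ, 2 * ⟪mu, al⟫_ℝ = k * ⟪al, al⟫_ℝ := by
        obtain ⟨H', hH', hmu⟩ := hmu
        have hV₀fin := hV₀.fin
        obtain ⟨t₀, hirr₀, hk₀, hcas₀⟩ := ktype_pack r.toRep r.skew J hV₀
        obtain ⟨v₀, hv₀⟩ := high_hw r.toRep J C hk₀ hmu
        exact fun al ha => wt_int t₀ C ⟨hv₀.mem, v₀, hv₀.ne, hv₀.wt⟩ ha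
      rcases bcd_int_half h hint with h1 | h1
      · exact bcd_prv C h hs r hV₀ hmu (fun _ => h1) hσ hI p hp hpe
      · exact bcd_prv_half C h (hspin (by norm_num)) r hV₀ hmu h1 hσ p hp hpe
    · exact bcd_prv C h hs r hV₀ hmu (fun h1 => absurd h1 hm) hσ hI p hp hpe
  · obtain ⟨Y, j1, j2, j3, p, hp, hpe⟩ := hspin hm σ hσ
    exact ⟨Y, j1, j2, j3, p, hp, hpe, Or.inl (bcd_spin_mins h hm hσ)⟩

end Pool.Agent.Lib.MP_4322ef_CH
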