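import Pool.Agent.Lib.MP_4322ef_CP.QDefs
import Pool.Agent.Lib.MP_4322ef_CE.Mg.G003

/-!
# Orthogonal and symplectic Lie algebras: the operators `wd c e x y`
-/

set_option autoImplicit false

open scoped InnerProductSpace

namespace Pool.Agent.Lib.MP_4322ef_CH

open Pool.Agent.Lib.MP_4322ef_al.SR

variable {g : Type} [NormedAddCommGroup g] [InnerProductSpace ℝ g] {L : RedLie g}

section
variable {J : CStr L} {E : Type} [NormedAddCommGroup E] [InnerProductSpace ℂ E]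
variable {s : CRep J E} {c : E →ₗ⋆[ℂ] E} {e : ℝ} {N : Submodule ℝ g}

theorem q_ee (h : TypeQN s c e N) : (e : ℂ) * (e : ℂ) = 1 := by
  rcases h.sgn with h | h <;> rw [h] <;> norm_num

/-- the bilinear form is symmetric or alternating -/
theorem q_symm (h : TypeQN s c e N) (x y : E) : ⟪c y, x⟫_ℂ = (e : ℂ) * ⟪c x, y⟫_ℂ := by
  have h1 := h.iso y (c x)
  rw [h.sq, inner_smul_right] at h1
  rw [← h1, ← mul_assoc, q_ee h, one_mul]

theorem q_cc (h : TypeQN s c e N) (x y : E) : ⟪x, c y⟫_ℂ = (e : ℂ) * ⟪y, c x⟫_ℂ := by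
  rw [← inner_conj_symm, q_symm h x y, map_mul, Complex.conj_ofReal, inner_conj_symm]

theorem q_inv (h : TypeQN s c e N) (A : g) (x y : E) : ⟪c (s.op A x), y⟫_ℂ = -⟪c x, s.op A y⟫_ℂ :=
  h.inv A x y

theorem q_cop (h : TypeQN s c e N) (A : g) (x : E) : c (s.op A x) = s.op (L.th A) (c x) := by
  refine ext_inner_right ℂ fun y => ?_
  rw [q_inv h, s.adj, L.th_th]

theorem q_cwt (h : TypeQN s c e N) (C : CSub L) {lam : g} {x : E} (hx : WV s C.a lam x) :
    WV s C.a (-lam) (c x) := by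
  intro H hH
  have h1 := q_cop h H x
  rw [hx H hH, C.a_p H hH, Rep.neg', LinearMap.neg_apply, LinearMap.map_smulₛₗ,
    Complex.conj_ofReal] at h1
  rw [inner_neg_left, Complex.ofReal_neg, neg_smul, h1, neg_neg]

theorem wd_mem (h : TypeQN s c e N) (x y : E) : ∃ A ∈ N, s.op A = wd c e x y := by
  refine h.all _ fun z z' => ?_
  rw [wd_apply, wd_apply, map_sub, LinearMap.map_smulₛₗ, LinearMap.map_smulₛₗ, inner_sub_left,
    inner_smul_left, inner_smul_left, inner_sub_right, inner_smul_right, inner_smul_right,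
    RingHom.map_mul, Complex.conj_ofReal, RingHomCompTriple.comp_apply, RingHom.id_apply, map_mul,
    RingHomCompTriple.comp_apply, RingHom.id_apply, Complex.conj_ofReal, q_symm h x z, q_symm h y z]
  linear_combination (-(⟪c x, z⟫_ℂ * ⟪c y, z'⟫_ℂ)) * q_ee h

/-- the adjoint of `wd c e x y` -/
theorem wd_adj (x y z z' : E) : ⟪wd c e x y z, z'⟫_ℂ =
    ⟪z, ⟪y, z'⟫_ℂ • c x - ((e : ℂ) * ⟪x, z'⟫_ℂ) • c y⟫_ℂ := by
  rw [wd_apply, inner_sub_left, inner_smul_left, inner_smul_left, inner_sub_right,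
    inner_smul_right, inner_smul_right, inner_conj_symm, map_mul, inner_conj_symm,
    Complex.conj_ofReal]
  ring

theorem wd_th {x y : E} {A : g} (hA : s.op A = wd c e x y) (z : E) :
    s.op (L.th A) z = -(⟪y, z⟫_ℂ • c x - ((e : ℂ) * ⟪x, z⟫_ℂ) • c y) := by
  refine ext_inner_left ℂ fun z' => ?_
  have h1 := s.adj A z' z
  rw [hA, wd_adj] at h1
  rw [inner_neg_right, h1, neg_neg]

theorem q_eq (h : TypeQN s c e N) {A B : g} (hA : A ∈ N) (hB : B ∈ N) (hAB : s.op A = s.op B) :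
    A = B := by
  rw [← sub_eq_zero]
  apply h.ide.faith _ (N.sub_mem hA hB)
  rw [sub_eq_add_neg, s.add, Rep.neg', hAB, add_neg_cancel]

/-- `wd c e x y` is a root vector -/
theorem wd_rv (h : TypeQN s c e N) (C : CSub L) {lam lam' : g} {x y : E} {A : g}
    (hx : WV s C.a lam x) (hy : WV s C.a lam' y) (hAN : A ∈ N) (hA : s.op A = wd c e x y) :
    RV L C.a (lam + lam') A := by
  intro H hH
  have hself : ∀ z z' : E, ⟪z, s.op H z'⟫_ℂ = ⟪s.op H z, z'⟫_ℂ := by
    intro z z'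
    rw [s.adj, C.a_p H hH, Rep.neg', LinearMap.neg_apply, inner_neg_right, neg_neg]
  have hcx : ∀ z, ⟪c x, s.op H z⟫_ℂ = -((⟪lam, H⟫_ℝ : ℂ) * ⟪c x, z⟫_ℂ) := by
    intro z
    rw [hself, q_cwt h C hx H hH, inner_smul_left, Complex.conj_ofReal, inner_neg_left,
      Complex.ofReal_neg, neg_mul]
  have hcy : ∀ z, ⟪c y, s.op H z⟫_ℂ = -((⟪lam', H⟫_ℝ : ℂ) * ⟪c y, z⟫_ℂ) := by
    intro z
    rw [hself, q_cwt h C hy H hH, inner_smul_left, Complex.conj_ofReal, inner_neg_left,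
      Complex.ofReal_neg, neg_mul]
  apply q_eq h (h.ide.stab _ _ hAN) (N.smul_mem _ hAN)
  refine LinearMap.ext fun z => ?_
  rw [s.bracket, s.smul, LinearMap.smul_apply, hA, wd_apply, wd_apply, map_sub, map_smul, map_smul,
    hx H hH, hy H hH, hcx, hcy, inner_add_left, Complex.ofReal_add]
  module

/-- the operator `⟪x, z⟫ x - ⟪c x, z⟫ c x` for a weight vector `x` -/
theorem diag_mem (h : TypeQN s c e N) (C : CSub L) {lam : g} {x : E} (hx : WV s C.a lam x) :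
    ∃ H ∈ C.a, ∀ z, s.op H z = ⟪x, z⟫_ℂ • x - ⟪c x, z⟫_ℂ • c x := by
  obtain ⟨A, hAN, hA⟩ := wd_mem h (c x) x
  have hAz : ∀ z, s.op (e • A) z = ⟪x, z⟫_ℂ • x - ⟪c x, z⟫_ℂ • c x := by
    intro z
    have h1 := q_ee h
    rw [s.smul, LinearMap.smul_apply, hA, wd_apply, h.sq, inner_smul_left, Complex.conj_ofReal,
      smul_sub, smul_smul, smul_smul, ← mul_assoc, ← mul_assoc, h1, one_mul, one_mul]
  have hth : L.th (e • A) = -(e • A) := by
    apply q_eq h (h.ide.th _ (N.smul_mem _ hAN)) (N.neg_mem (N.smul_mem _ hAN))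
    refine LinearMap.ext fun z => ?_
    refine ext_inner_left ℂ fun z' => ?_
    have h1 := s.adj (e • A) z' z
    rw [Rep.neg', LinearMap.neg_apply, inner_neg_right, ← neg_eq_iff_eq_neg, ← h1, hAz, hAz,
      inner_sub_left, inner_sub_right, inner_smul_left, inner_smul_left, inner_smul_right,
      inner_smul_right, inner_conj_symm, inner_conj_symm]
    ring
  refine ⟨e • A, C.a_max _ hth fun H hH => ?_, hAz⟩
  have h1 := wd_rv h C (q_cwt h C hx) hx hAN hA H hH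
  rw [map_smul, h1, neg_add_cancel, inner_zero_left, zero_smul, smul_zero]

end

/-- a weight vector of maximal weight is a highest weight vector -/
theorem hw_of_max [FiniteDimensional ℝ g] {J : CStr L} {W : Type} [NormedAddCommGroup W] [InnerProductSpace ℂ W]
    (t : CRep J W) (C : CSub L) {H₁ be : g} {v : W} (hH₁ : H₁ ∈ C.a) (hbe : be ∈ C.a)
    (hv0 : v ≠ 0) (hv : WV t C.a be v)
    (hmax : ∀ lam, IsW t C.a lam → ⟪lam, H₁⟫_ℝ ≤ ⟪be, H₁⟫_ℝ) : HW t C.a H₁ be v := by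
  refine ⟨hbe, hv0, hv, ?_⟩
  rintro Z ⟨r, hr, hZ⟩
  refine N06_pos C t hH₁ (fun al hal hpos Z hZ => ?_) hr hZ
  by_contra hne
  have h1 := hmax (al + be) ⟨C.a.add_mem hal hbe, t.op Z v, hne, wt_shift t C hZ hv⟩
  rw [inner_add_left] at h1
  linarith

/-- a weight vector of strictly maximal weight is a highest weight vector for some positive system -/
theorem hw_of_strict [FiniteDimensional ℝ g] {J : CStr L} {W : Type} [NormedAddCommGroup W]
    [InnerProductSpace ℂ W] (t : CRep J W) (C : CSub L) {H₀ be : g} {v : W} (hH₀ : H₀ ∈ C.a)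
    (hbe : be ∈ C.a) (hv0 : v ≠ 0) (hv : WV t C.a be v)
    (hmax : ∀ lam, IsW t C.a lam → lam = be ∨ ⟪lam, H₀⟫_ℝ < ⟪be, H₀⟫_ℝ) :
    ∃ H₁, Reg L C.a H₁ ∧ HW t C.a H₁ be v := by
  obtain ⟨H₁, hH₁, hd⟩ := exists_comm C hH₀ hH₀ fun al _ hpos => hpos.le
  refine ⟨H₁, hH₁, hbe, hv0, hv, ?_⟩
  rintro Z ⟨r, hr, hZ⟩
  refine N06_pos C t hH₁.1 (fun al hal hpos Z hZ => ?_) hr hZ
  by_contra hne
  have hal0 : al ≠ 0 := by
    rintro rfl
    rw [inner_zero_left] at hpos
    exact lt_irrefl _ hpos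
  have hZ0 : Z ≠ 0 := by
    rintro rfl
    exact hne (by rw [Rep.zero', LinearMap.zero_apply])
  have h2 := (hd al ⟨hal, hal0, Z, hZ0, hZ⟩ hpos).1
  rcases hmax (al + be) ⟨C.a.add_mem hal hbe, t.op Z v, hne, wt_shift t C hZ hv⟩ with h1 | h1
  · exact hal0 (add_eq_right.1 h1)
  · rw [inner_add_left] at h1
    linarith

end Pool.Agent.Lib.MP_4322ef_CH
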