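import Pool.Agent.Lib.MP_4322ef_CP.T01
import Pool.Agent.Lib.MP_4322ef_CH.Mg.G001

/-!
# The root systems of the orthogonal and symplectic Lie algebras

Notation: `b` is one of the vectors `u i` (weight `ep i`), `c (u i)` (weight `- ep i`), `w` (weight `0`); they
are orthonormal (`w` may be `0`) and span (`QB.exp`). `c w = w` and `c (c x) = e x`, so `w = 0` if `e = -1`.

* `qb_H`: `diag_mem` for `x = u i`: the operator is `1` on `u i`, `0` on the other `u j`.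
* `qb_roots`, from right to left: for `x = u i` or `c (u i)` (weight `σ ep i`) and `y = u j` or `c (u j)` (weight
  `τ ep j`) take `A` with `s.op A = wd c e x y` (`wd_mem`), `RV L C.a (σ ep i + τ ep j) A` (`wd_rv`), `A ≠ 0` as `wd c e x y` maps
  `c x` to `± y` (for `i ≠ j`); for `qm = 1` take `y = w`, for `qm = 2` take `y = x` (`σ` may be replaced by `± 1`, the
  root is `2 σ ep i`). The root is `≠ 0` by `qb_H`. From left to right: `s.op Z ≠ 0`, so by `exp`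
  `⟪b', s.op Z b⟫ ≠ 0` for two of the vectors `b`, `b'`, and then `wt b' = al + wt b` (`wt_shift`, `wt_orth`), so `al = wt b' - wt b`
  is one of `± ep i ± ep j` (`i ≠ j`), `± ep i`, `± 2 ep i`. `± ep i` needs `w ≠ 0`, so `qm = 1`. `± 2 ep i` is the case
  `b' = u i`, `b = c (u i)` (or exchanged): then `b' = ± c b` and `⟪c b, s.op Z b⟫ = -⟪c (s.op Z b), b⟫ = -e ⟪c b, s.op Z b⟫`
  (`q_inv`, `q_symm`), so `e = -1` and `qm = 2`.
* `qb_norm`: for the `A` above `br_th_root` gives `[A, θ A] = -⟪A, A⟫ (σ ep i + τ ep j)`; apply this to `u k` (`wd_th`, `wd_apply`):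
  `⟪A, A⟫ ⟪ep k, σ ep i + τ ep j⟫` is the eigenvalue, `σ` if `k = i`, `τ` if `k = j`, `0` otherwise. For
  `qb_norm'`: the same with `A` for the root `ep i` (`qm = 1`) or `2 ep i` (`qm = 2`; change `N` by a factor).
* `qb_bcd`: orthogonality: `qb_norm'` if `qm ≠ 0`, and if there is a third index `k`, then
  `⟪ep k, ep i + ep j⟫ = 0 = ⟪ep k, ep i - ep j⟫`. Equal length: `qb_norm` for `σ = τ = 1`, `k = i` and `k = j`, and orthogonality. (With
  one index there is nothing to prove.)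
-/

set_option autoImplicit false

open scoped InnerProductSpace

namespace Pool.Agent.Lib.MP_4322ef_CH

open Pool.Agent.Lib.MP_4322ef_al.SR

variable {g : Type} [NormedAddCommGroup g] [InnerProductSpace ℝ g] {L : RedLie g}

open Classical in
/-- the type: `2` for `sp`, `1` for `so` in odd dimension, `0` for `so` in even dimension -/
noncomputable def qm {E : Type} [AddCommGroup E] (e : ℝ) (w : E) : ℕ :=
  if e = 1 then (if w = 0 then 0 else 1) else 2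

section
variable {J : CStr L} {E : Type} [NormedAddCommGroup E] [InnerProductSpace ℂ E]
variable {s : CRep J E} {c : E →ₗ⋆[ℂ] E} {e : ℝ} {N : Submodule ℝ g}

/-- `x` is `u i` (and `σ = 1`) or `c (u i)` (and `σ = - 1`) -/
def T03_SV {n : ℕ} (c : E →ₗ⋆[ℂ] E) (u : Fin n → E) (i : Fin n) (σ : ℝ) (x : E) : Prop :=
  (σ = 1 ∧ x = u i) ∨ (σ = -1 ∧ x = c (u i))

theorem T03_SV_ex {n : ℕ} (c : E →ₗ⋆[ℂ] E) (u : Fin n → E) (i : Fin n) {σ : ℝ} (hσ : |σ| = 1) :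
    ∃ x, T03_SV c u i σ x := by
  rcases (abs_eq (by norm_num : (0 : ℝ) ≤ 1)).1 hσ with h1 | h1
  · exact ⟨u i, Or.inl ⟨h1, rfl⟩⟩
  · exact ⟨c (u i), Or.inr ⟨h1, rfl⟩⟩

theorem T03_eabs (h : TypeQN s c e N) : ‖(e : ℂ)‖ = 1 := by
  rcases h.sgn with h1 | h1 <;> rw [h1] <;> simp

theorem T03_ene (h : TypeQN s c e N) : (e : ℂ) ≠ 0 := by
  rcases h.sgn with h1 | h1 <;> rw [h1] <;> norm_num

theorem T03_ciso (h : TypeQN s c e N) (x y : E) : ⟪c x, c y⟫_ℂ = ⟪y, x⟫_ℂ := h.iso x y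

theorem T03_ccl (h : TypeQN s c e N) (x y : E) : ⟪c (c x), y⟫_ℂ = (e : ℂ) * ⟪x, y⟫_ℂ := by
  rw [h.sq, inner_smul_left, Complex.conj_ofReal]

section basis
variable {C : CSub L} {n : ℕ} {ep : Fin n → g} {u : Fin n → E} {w : E}

theorem T03_uc' (hb : QB C s c ep u w) (i j : Fin n) : ⟪u i, c (u j)⟫_ℂ = 0 := by
  rw [← inner_conj_symm, hb.uc, map_zero]

theorem T03_cc (h : TypeQN s c e N) (hb : QB C s c ep u w) (i j : Fin n) :
    ⟪c (u i), c (u j)⟫_ℂ = if i = j then 1 else 0 := by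
  rw [h.iso, hb.uu]
  by_cases hij : i = j
  · rw [if_pos hij, if_pos hij.symm]
  · rw [if_neg hij, if_neg fun h1 => hij h1.symm]

theorem T03_wu (hb : QB C s c ep u w) (i : Fin n) : ⟪w, u i⟫_ℂ = 0 := by
  rw [← inner_conj_symm, hb.uw, map_zero]

theorem T03_wc (h : TypeQN s c e N) (hb : QB C s c ep u w) (i : Fin n) : ⟪w, c (u i)⟫_ℂ = 0 := by
  have h1 := h.iso w (u i)
  rw [hb.cw] at h1
  rw [h1, hb.uw]

theorem T03_cw' (h : TypeQN s c e N) (hb : QB C s c ep u w) (i : Fin n) : ⟪c (u i), w⟫_ℂ = 0 := by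
  rw [← inner_conj_symm, T03_wc h hb, map_zero]

/-- weights -/
theorem T03_wt (h : TypeQN s c e N) (hb : QB C s c ep u w) {i : Fin n} {σ : ℝ} {x : E}
    (hx : T03_SV c u i σ x) : WV s C.a (σ • ep i) x := by
  rcases hx with ⟨rfl, rfl⟩ | ⟨rfl, rfl⟩
  · rw [one_smul]
    exact hb.wt i
  · rw [neg_smul, one_smul]
    exact q_cwt h C (hb.wt i)

theorem T03_mem (hb : QB C s c ep u w) (i : Fin n) (σ : ℝ) : σ • ep i ∈ C.a :=
  C.a.smul_mem σ (hb.mem i)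

theorem T03_self (h : TypeQN s c e N) (hb : QB C s c ep u w) {i : Fin n} {σ : ℝ} {x : E}
    (hx : T03_SV c u i σ x) : ⟪x, x⟫_ℂ = 1 := by
  rcases hx with ⟨-, rfl⟩ | ⟨-, rfl⟩
  · rw [hb.uu, if_pos rfl]
  · rw [T03_cc h hb, if_pos rfl]

theorem T03_cxx (h : TypeQN s c e N) (hb : QB C s c ep u w) {i : Fin n} {σ : ℝ} {x : E}
    (hx : T03_SV c u i σ x) : ⟪c x, c x⟫_ℂ = 1 := by
  rw [h.iso, T03_self h hb hx]

theorem T03_orth (h : TypeQN s c e N) (hb : QB C s c ep u w) {i j : Fin n} {σ τ : ℝ} {x y : E}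
    (hij : i ≠ j) (hx : T03_SV c u i σ x) (hy : T03_SV c u j τ y) : ⟪x, y⟫_ℂ = 0 := by
  rcases hx with ⟨-, rfl⟩ | ⟨-, rfl⟩ <;> rcases hy with ⟨-, rfl⟩ | ⟨-, rfl⟩
  · rw [hb.uu, if_neg hij]
  · rw [T03_uc' hb]
  · rw [hb.uc]
  · rw [T03_cc h hb, if_neg hij]

theorem T03_corth (h : TypeQN s c e N) (hb : QB C s c ep u w) {i j : Fin n} {σ τ : ℝ} {x y : E}
    (hij : i ≠ j) (hx : T03_SV c u i σ x) (hy : T03_SV c u j τ y) : ⟪c x, y⟫_ℂ = 0 := by
  rcases hx with ⟨-, rfl⟩ | ⟨-, rfl⟩ <;> rcases hy with ⟨-, rfl⟩ | ⟨-, rfl⟩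
  · rw [hb.uc]
  · rw [T03_cc h hb, if_neg hij]
  · rw [T03_ccl h, hb.uu, if_neg hij, mul_zero]
  · rw [T03_ccl h, T03_uc' hb, mul_zero]

theorem T03_xw (h : TypeQN s c e N) (hb : QB C s c ep u w) {i : Fin n} {σ : ℝ} {x : E}
    (hx : T03_SV c u i σ x) : ⟪x, w⟫_ℂ = 0 := by
  rcases hx with ⟨-, rfl⟩ | ⟨-, rfl⟩
  · exact hb.uw i
  · exact T03_cw' h hb i

/-- the difference of the squares is `σ` or `0` -/
theorem T03_sq (h : TypeQN s c e N) (hb : QB C s c ep u w) {i : Fin n} {σ : ℝ} {x : E}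
    (hx : T03_SV c u i σ x) (k : Fin n) :
    ‖⟪x, u k⟫_ℂ‖ ^ 2 - ‖⟪c x, u k⟫_ℂ‖ ^ 2 = σ * (if k = i then 1 else 0) := by
  rcases hx with ⟨rfl, rfl⟩ | ⟨rfl, rfl⟩
  · rw [hb.uu, hb.uc]
    by_cases hik : k = i
    · rw [if_pos hik, if_pos hik.symm]
      simp
    · rw [if_neg hik, if_neg fun h1 => hik h1.symm]
      simp
  · rw [hb.uc, T03_ccl h, hb.uu]
    by_cases hik : k = i
    · rw [if_pos hik, if_pos hik.symm, mul_one, T03_eabs h]
      simp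
    · rw [if_neg hik, if_neg fun h1 => hik h1.symm]
      simp

theorem T03_ns (v : E) : ((‖v‖ ^ 2 : ℝ) : ℂ) = ⟪v, v⟫_ℂ := by
  rw [inner_self_eq_norm_sq_to_K]
  push_cast
  rfl

theorem T03_selfneg {x : E} (hx : x = -x) : x = 0 := by
  have h1 : (2 : ℂ) • x = 0 := by
    rw [two_smul]
    nth_rewrite 1 [hx]
    exact neg_add_cancel x
  exact (smul_eq_zero.1 h1).resolve_left two_ne_zero

theorem T03_norm2 {p q : E} (hp : ⟪p, p⟫_ℂ = 1) (hq : ⟪q, q⟫_ℂ = 1) (hpq : ⟪p, q⟫_ℂ = 0)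
    (a b : ℂ) : ‖a • p - b • q‖ ^ 2 = ‖a‖ ^ 2 + ‖b‖ ^ 2 := by
  have hqp : ⟪q, p⟫_ℂ = 0 := by rw [← inner_conj_symm, hpq, map_zero]
  have h1 : ⟪a • p - b • q, a • p - b • q⟫_ℂ = ((‖a‖ ^ 2 + ‖b‖ ^ 2 : ℝ) : ℂ) := by
    rw [inner_sub_left, inner_sub_right, inner_sub_right, inner_smul_left, inner_smul_left,
      inner_smul_left, inner_smul_left, inner_smul_right, inner_smul_right, inner_smul_right,
      inner_smul_right, hp, hq, hpq, hqp]
    push_cast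
    rw [← Complex.conj_mul', ← Complex.conj_mul']
    ring
  rw [← T03_ns] at h1
  exact Complex.ofReal_injective h1

/-- `[A, θ A]` on the vector `u k` -/
theorem T03_eig (hb : QB C s c ep u w) {A al : g} (hal : al ∈ C.a) (hA : RV L C.a al A)
    (k : Fin n) : ⟪A, A⟫_ℝ * ⟪ep k, al⟫_ℝ =
      ‖s.op (L.th A) (u k)‖ ^ 2 - ‖s.op A (u k)‖ ^ 2 := by
  have h1 := br_th_root C hal hA
  have h2 := s.bracket A (L.th A) (u k)
  rw [h1, Rep.neg', LinearMap.neg_apply, s.smul, LinearMap.smul_apply, hb.wt k al hal] at h2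
  have h3 := congrArg (fun v => ⟪u k, v⟫_ℂ) h2
  rw [inner_neg_right, inner_smul_right, inner_smul_right, hb.uu, if_pos rfl, mul_one,
    inner_sub_right] at h3
  have h4 : ⟪u k, s.op A (s.op (L.th A) (u k))⟫_ℂ = -(‖s.op (L.th A) (u k)‖ ^ 2 : ℝ) := by
    have h5 := s.adj (L.th A) (u k) (s.op (L.th A) (u k))
    rw [L.th_th] at h5
    rw [← neg_eq_iff_eq_neg, ← h5, inner_self_eq_norm_sq_to_K]
    push_cast
    rfl
  have h6 : ⟪u k, s.op (L.th A) (s.op A (u k))⟫_ℂ = -(‖s.op A (u k)‖ ^ 2 : ℝ) := by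
    have h5 := s.adj A (u k) (s.op A (u k))
    rw [← neg_eq_iff_eq_neg, ← h5, inner_self_eq_norm_sq_to_K]
    push_cast
    rfl
  rw [h4, h6] at h3
  have h7 : -(⟪A, A⟫_ℝ * ⟪ep k, al⟫_ℝ) =
      -‖s.op (L.th A) (u k)‖ ^ 2 - -‖s.op A (u k)‖ ^ 2 := by
    exact_mod_cast h3
  linarith

/-- the eigenvalue for `wd c e x y` with orthonormal `x`, `y`, `c x`, `c y` -/
theorem T03_eig2 (h : TypeQN s c e N) (hb : QB C s c ep u w) {x y : E} {A al : g}
    (hA : s.op A = wd c e x y) (hal : al ∈ C.a) (hRV : RV L C.a al A)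
    (hx : ⟪x, x⟫_ℂ = 1) (hy : ⟪y, y⟫_ℂ = 1) (hxy : ⟪x, y⟫_ℂ = 0) (k : Fin n) :
    ⟪A, A⟫_ℝ * ⟪ep k, al⟫_ℝ = (‖⟪x, u k⟫_ℂ‖ ^ 2 - ‖⟪c x, u k⟫_ℂ‖ ^ 2) +
      (‖⟪y, u k⟫_ℂ‖ ^ 2 - ‖⟪c y, u k⟫_ℂ‖ ^ 2) := by
  have hyx : ⟪y, x⟫_ℂ = 0 := by rw [← inner_conj_symm, hxy, map_zero]
  have h1 : ‖s.op (L.th A) (u k)‖ ^ 2 = ‖⟪y, u k⟫_ℂ‖ ^ 2 + ‖⟪x, u k⟫_ℂ‖ ^ 2 := by
    rw [wd_th hA, norm_neg, T03_norm2 (p := c x) (q := c y) (by rw [h.iso, hx])
      (by rw [h.iso, hy]) (by rw [h.iso, hyx]), norm_mul, T03_eabs h, one_mul]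
  have h2 : ‖s.op A (u k)‖ ^ 2 = ‖⟪c x, u k⟫_ℂ‖ ^ 2 + ‖⟪c y, u k⟫_ℂ‖ ^ 2 := by
    rw [hA, wd_apply, T03_norm2 (p := y) (q := x) hy hx hyx, norm_mul, T03_eabs h, one_mul]
  rw [T03_eig hb hal hRV k, h1, h2]
  ring

theorem T03_pos {A : g} (hA : A ≠ 0) : 0 < ⟪A, A⟫_ℝ := by
  rw [real_inner_self_eq_norm_sq]
  exact pow_pos (norm_pos_iff.2 hA) 2

theorem T03_A0 {x y : E} {A : g} (hA : s.op A = wd c e x y) (z : E) (hz : wd c e x y z ≠ 0) :
    A ≠ 0 := by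
  rintro rfl
  apply hz
  rw [← hA, Rep.zero', LinearMap.zero_apply]

theorem T03_e1 (hm : qm e w ≠ 0) : (e = 1 ∧ w ≠ 0 ∧ qm e w = 1) ∨ (e ≠ 1 ∧ qm e w = 2) := by
  unfold qm at hm ⊢
  by_cases h1 : e = 1
  · by_cases h2 : w = 0
    · exact absurd (by rw [if_pos h1, if_pos h2]) hm
    · exact Or.inl ⟨h1, h2, by rw [if_pos h1, if_neg h2]⟩
  · exact Or.inr ⟨h1, by rw [if_neg h1]⟩

theorem T03_em (h : TypeQN s c e N) (h1 : e ≠ 1) : e = -1 := by
  rcases h.sgn with h2 | h2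
  · exact absurd h2 h1
  · exact h2

theorem T03_w0 (h : TypeQN s c e N) (hb : QB C s c ep u w) (hw : w ≠ 0) : qm e w = 1 := by
  have h1 := h.sq w
  rw [hb.cw, hb.cw] at h1
  have h2 : e = 1 := by
    rcases h.sgn with h2 | h2
    · exact h2
    · rw [h2, Complex.ofReal_neg, Complex.ofReal_one, neg_smul, one_smul] at h1
      exact absurd (T03_selfneg h1) hw
  unfold qm
  rw [if_pos h2, if_neg hw]

theorem T03_two (h : TypeQN s c e N) {Z : g} {y : E} (hy : ⟪c y, s.op Z y⟫_ℂ ≠ 0) :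
    qm e w = 2 := by
  have h1 := q_symm h y (s.op Z y)
  rw [q_inv h] at h1
  have h2 : e ≠ 1 := by
    rintro rfl
    rw [Complex.ofReal_one, one_mul] at h1
    exact hy (self_eq_neg.1 h1.symm)
  unfold qm
  rw [if_neg h2]

end basis

theorem qb_H (h : TypeQN s c e N) (C : CSub L) {n : ℕ} {ep : Fin n → g} {u : Fin n → E} {w : E}
    (hb : QB C s c ep u w) (i : Fin n) :
    ∃ H ∈ C.a, ∀ j, ⟪ep j, H⟫_ℝ = if j = i then 1 else 0 := by
  obtain ⟨H, hH, hz⟩ := diag_mem h C (hb.wt i)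
  refine ⟨H, hH, fun j => ?_⟩
  have h1 := hz (u j)
  rw [hb.wt j H hH, hb.uc, zero_smul, sub_zero] at h1
  have h2 := congrArg (fun v => ⟪u j, v⟫_ℂ) h1
  rw [inner_smul_right, inner_smul_right, hb.uu, if_pos rfl, mul_one, hb.uu, hb.uu] at h2
  by_cases hij : j = i
  · rw [if_pos hij] at h2 ⊢
    rw [if_pos hij.symm, mul_one] at h2
    exact_mod_cast h2
  · rw [if_neg hij] at h2 ⊢
    rw [mul_zero] at h2
    exact_mod_cast h2

section basis2
variable {C : CSub L} {n : ℕ} {ep : Fin n → g} {u : Fin n → E} {w : E}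

/-- the root vector for `± ep i ± ep j` -/
theorem T03_ij (h : TypeQN s c e N) (hb : QB C s c ep u w) {i j : Fin n} {σ τ : ℝ} {x y : E}
    (hij : i ≠ j) (hx : T03_SV c u i σ x) (hy : T03_SV c u j τ y) :
    ∃ A ∈ N, s.op A = wd c e x y ∧ A ≠ 0 ∧ RV L C.a (σ • ep i + τ • ep j) A := by
  obtain ⟨A, hAN, hA⟩ := wd_mem h x y
  refine ⟨A, hAN, hA, T03_A0 hA (c x) ?_, wd_rv h C (T03_wt h hb hx) (T03_wt h hb hy) hAN hA⟩
  have hyx : ⟪y, x⟫_ℂ = 0 := T03_orth h hb hij.symm hy hx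
  have hxy : ⟪x, y⟫_ℂ = 0 := T03_orth h hb hij hx hy
  rw [wd_apply, h.iso, T03_self h hb hx, h.iso, hxy, mul_zero, zero_smul, one_smul, sub_zero]
  rintro rfl
  have h1 := T03_self h hb hy
  rw [inner_zero_left] at h1
  exact zero_ne_one h1

/-- the root vector for `± ep i` -/
theorem T03_iw (h : TypeQN s c e N) (hb : QB C s c ep u w) {i : Fin n} {σ : ℝ} {x : E}
    (hw : w ≠ 0) (hx : T03_SV c u i σ x) :
    ∃ A ∈ N, s.op A = wd c e x w ∧ A ≠ 0 ∧ RV L C.a (σ • ep i) A := by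
  obtain ⟨A, hAN, hA⟩ := wd_mem h x w
  have h1 := wd_rv h C (T03_wt h hb hx) hb.wt0 hAN hA
  rw [add_zero] at h1
  refine ⟨A, hAN, hA, T03_A0 hA (c x) ?_, h1⟩
  rw [wd_apply, h.iso, T03_self h hb hx, h.iso, T03_xw h hb hx, mul_zero, zero_smul, one_smul,
    sub_zero]
  exact hw

/-- the root vector for `± 2 ep i` -/
theorem T03_ii (h : TypeQN s c e N) (hb : QB C s c ep u w) {i : Fin n} {σ : ℝ} {x : E}
    (he : e = -1) (hx : T03_SV c u i σ x) :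
    ∃ A ∈ N, (∀ z, s.op A z = (2 * ⟪c x, z⟫_ℂ) • x) ∧
      (∀ z, s.op (L.th A) z = -((2 * ⟪x, z⟫_ℂ) • c x)) ∧ A ≠ 0 ∧
      RV L C.a ((2 * σ) • ep i) A := by
  obtain ⟨A, hAN, hA⟩ := wd_mem h x x
  have h1 := wd_rv h C (T03_wt h hb hx) (T03_wt h hb hx) hAN hA
  rw [← add_smul, ← two_mul] at h1
  have h2 : ∀ z, s.op A z = (2 * ⟪c x, z⟫_ℂ) • x := by
    intro z
    rw [hA, wd_apply, he, ← sub_smul]
    congr 1
    push_cast
    ring
  have h3 : ∀ z, s.op (L.th A) z = -((2 * ⟪x, z⟫_ℂ) • c x) := by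
    intro z
    rw [wd_th hA, he, ← sub_smul]
    congr 2
    push_cast
    ring
  refine ⟨A, hAN, h2, h3, ?_, h1⟩
  rintro rfl
  have h4 := h2 (c x)
  rw [Rep.zero', LinearMap.zero_apply, T03_cxx h hb hx, mul_one] at h4
  have h5 := congrArg (fun v => ⟪x, v⟫_ℂ) h4
  rw [inner_zero_right, inner_smul_right, T03_self h hb hx] at h5
  norm_num at h5

theorem T03_ne_ij (h : TypeQN s c e N) (hb : QB C s c ep u w) {i j : Fin n} {σ τ : ℝ}
    (hij : i ≠ j) (hσ : σ ≠ 0) : σ • ep i + τ • ep j ≠ 0 := by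
  obtain ⟨H, hH, hz⟩ := qb_H h C hb i
  intro h0
  have h1 : ⟪σ • ep i + τ • ep j, H⟫_ℝ = σ := by
    rw [inner_add_left, real_inner_smul_left, real_inner_smul_left, hz, hz, if_pos rfl,
      if_neg hij.symm, mul_one, mul_zero, add_zero]
  rw [h0, inner_zero_left] at h1
  exact hσ h1.symm

theorem T03_ne_i (h : TypeQN s c e N) (hb : QB C s c ep u w) {i : Fin n} {σ : ℝ}
    (hσ : σ ≠ 0) : σ • ep i ≠ 0 := by
  obtain ⟨H, hH, hz⟩ := qb_H h C hb i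
  intro h0
  have h1 : ⟪σ • ep i, H⟫_ℝ = σ := by
    rw [real_inner_smul_left, hz, if_pos rfl, mul_one]
  rw [h0, inner_zero_left] at h1
  exact hσ h1.symm

/-- the vectors of the basis with their weights -/
def T03_B (C : CSub L) (c : E →ₗ⋆[ℂ] E) (ep : Fin n → g) (u : Fin n → E) (w : E) (lam : g)
    (b : E) : Prop :=
  (∃ i, ∃ σ : ℝ, lam = σ • ep i ∧ T03_SV c u i σ b) ∨ (lam = 0 ∧ b = w)

theorem T03_B_wt (h : TypeQN s c e N) (hb : QB C s c ep u w) {lam : g} {b : E}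
    (hB : T03_B C c ep u w lam b) : lam ∈ C.a ∧ WV s C.a lam b := by
  rcases hB with ⟨i, σ, rfl, hx⟩ | ⟨rfl, rfl⟩
  · exact ⟨T03_mem hb i σ, T03_wt h hb hx⟩
  · exact ⟨C.a.zero_mem, hb.wt0⟩

theorem T03_ortho_zero (hb : QB C s c ep u w) {x : E}
    (hx : ∀ lam b, T03_B C c ep u w lam b → ⟪b, x⟫_ℂ = 0) : x = 0 := by
  rw [hb.exp x]
  have h1 : ∀ i, ⟪u i, x⟫_ℂ = 0 := fun i =>
    hx _ _ (Or.inl ⟨i, 1, rfl, Or.inl ⟨rfl, rfl⟩⟩)
  have h2 : ∀ i, ⟪c (u i), x⟫_ℂ = 0 := fun i =>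
    hx _ _ (Or.inl ⟨i, -1, rfl, Or.inr ⟨rfl, rfl⟩⟩)
  have h3 : ⟪w, x⟫_ℂ = 0 := hx _ _ (Or.inr ⟨rfl, rfl⟩)
  simp [h1, h2, h3]

theorem T03_op_zero (hb : QB C s c ep u w) {T : E →ₗ[ℂ] E}
    (hT : ∀ lam b, T03_B C c ep u w lam b → T b = 0) : T = 0 := by
  refine LinearMap.ext fun x => ?_
  rw [hb.exp x, LinearMap.zero_apply, map_add, map_add, map_sum, map_sum, map_smul,
    hT _ _ (Or.inr ⟨rfl, rfl⟩), smul_zero, add_zero]
  have h1 : ∀ i, T (u i) = 0 := fun i =>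
    hT _ _ (Or.inl ⟨i, 1, rfl, Or.inl ⟨rfl, rfl⟩⟩)
  have h2 : ∀ i, T (c (u i)) = 0 := fun i =>
    hT _ _ (Or.inl ⟨i, -1, rfl, Or.inr ⟨rfl, rfl⟩⟩)
  simp [h1, h2]

theorem T03_entry (h : TypeQN s c e N) (hb : QB C s c ep u w) {al Z : g} (hal : al ∈ C.a)
    (hZ : s.op Z ≠ 0) (hRV : RV L C.a al Z) : ∃ lam b lam' b', T03_B C c ep u w lam b ∧
      T03_B C c ep u w lam' b' ∧ ⟪b', s.op Z b⟫_ℂ ≠ 0 ∧ al + lam = lam' := by
  by_contra hcon
  apply hZ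
  apply T03_op_zero hb
  intro lam b hB
  apply T03_ortho_zero hb
  intro lam' b' hB'
  by_contra h1
  apply hcon
  refine ⟨lam, b, lam', b', hB, hB', h1, ?_⟩
  by_contra h2
  apply h1
  have h3 := T03_B_wt h hb hB
  have h4 := T03_B_wt h hb hB'
  exact wt_orth s C h4.1 (C.a.add_mem hal h3.1) h4.2 (wt_shift s C hRV h3.2)
    fun h5 => h2 h5.symm

theorem T03_abs1 {i : Fin n} {σ : ℝ} {x : E} (hx : T03_SV c u i σ x) : |σ| = 1 := by
  rcases hx with ⟨rfl, -⟩ | ⟨rfl, -⟩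
  · exact abs_one
  · rw [abs_neg, abs_one]

theorem T03_cSV (h : TypeQN s c e N) {i : Fin n} {σ : ℝ} {x : E} (hx : T03_SV c u i σ x) :
    ∃ a : ℂ, a ≠ 0 ∧ T03_SV c u i (-σ) (a • c x) := by
  rcases hx with ⟨rfl, rfl⟩ | ⟨rfl, rfl⟩
  · exact ⟨1, one_ne_zero, Or.inr ⟨rfl, one_smul _ _⟩⟩
  · refine ⟨(e : ℂ), T03_ene h, Or.inl ⟨neg_neg _, ?_⟩⟩
    rw [h.sq, smul_smul, q_ee h, one_smul]

theorem T03_SV_inj {i : Fin n} {σ : ℝ} {x y : E} (hx : T03_SV c u i σ x)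
    (hy : T03_SV c u i σ y) : x = y := by
  rcases hx with ⟨h1, rfl⟩ | ⟨h1, rfl⟩ <;> rcases hy with ⟨h2, rfl⟩ | ⟨h2, rfl⟩
  · rfl
  · rw [h1] at h2
    norm_num at h2
  · rw [h1] at h2
    norm_num at h2
  · rfl

end basis2

/-- a root vector killed by `s` -/
theorem qb_ker {C : CSub L} {n : ℕ} {ep : Fin n → g} {u : Fin n → E} {w : E}
    (hb : QB C s c ep u w) {al Z : g} (hal : al ∈ C.a) (hZ0 : Z ≠ 0) (hZ : RV L C.a al Z)
    (h0 : s.op Z = 0) (i : Fin n) : ⟪ep i, al⟫_ℝ = 0 := by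
  have h1 := T03_eig hb hal hZ i
  have h2 : s.op (L.th Z) (u i) = 0 := by
    refine ext_inner_left ℂ fun v => ?_
    have h3 := s.adj Z v (u i)
    rw [h0, LinearMap.zero_apply, inner_zero_left] at h3
    rw [inner_zero_right, ← neg_eq_zero, ← h3]
  rw [h2, h0, LinearMap.zero_apply, norm_zero, sub_self] at h1
  exact (mul_eq_zero.1 h1).resolve_left (T03_pos hZ0).ne'

/-- the root vectors lie in `N` -/
theorem qb_vec (h : TypeQN s c e N) (C : CSub L) {n : ℕ} {ep : Fin n → g} {u : Fin n → E} {w : E}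
    (hb : QB C s c ep u w) {al : g}
    (hal : (∃ i j, ∃ σ τ : ℝ, i ≠ j ∧ |σ| = 1 ∧ |τ| = 1 ∧ al = σ • ep i + τ • ep j) ∨
      ∃ i, ∃ σ : ℝ, qm e w ≠ 0 ∧ |σ| = qm e w ∧ al = σ • ep i) :
    al ∈ C.a ∧ al ≠ 0 ∧ ∃ A ∈ N, A ≠ 0 ∧ RV L C.a al A := by
  rcases hal with ⟨i, j, σ, τ, hij, hσ, hτ, rfl⟩ | ⟨i, σ, hm, hσ, rfl⟩
  · obtain ⟨x, hx⟩ := T03_SV_ex c u i hσ
    obtain ⟨y, hy⟩ := T03_SV_ex c u j hτ
    obtain ⟨A, hAN, -, hA0, hRV⟩ := T03_ij h hb hij hx hy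
    refine ⟨C.a.add_mem (T03_mem hb i σ) (T03_mem hb j τ), T03_ne_ij h hb hij ?_, A, hAN, hA0, hRV⟩
    rintro rfl
    rw [abs_zero] at hσ
    exact zero_ne_one hσ
  · have hσ0 : σ ≠ 0 := by
      rintro rfl
      rw [abs_zero] at hσ
      exact hm (by exact_mod_cast hσ.symm)
    rcases T03_e1 hm with ⟨-, hw, h1⟩ | ⟨he, h1⟩
    · rw [h1, Nat.cast_one] at hσ
      obtain ⟨x, hx⟩ := T03_SV_ex c u i hσ
      obtain ⟨A, hAN, -, hA0, hRV⟩ := T03_iw h hb hw hx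
      exact ⟨T03_mem hb i σ, T03_ne_i h hb hσ0, A, hAN, hA0, hRV⟩
    · rw [h1] at hσ
      have h2 : |σ / 2| = 1 := by
        rw [abs_div, hσ]
        norm_num
      obtain ⟨x, hx⟩ := T03_SV_ex c u i h2
      obtain ⟨A, hAN, -, -, hA0, hRV⟩ := T03_ii h hb (T03_em h he) hx
      rw [mul_div_cancel₀ σ (two_ne_zero' ℝ)] at hRV
      exact ⟨T03_mem hb i σ, T03_ne_i h hb hσ0, A, hAN, hA0, hRV⟩

theorem qb_roots (h : TypeQN s c e N) (C : CSub L) {n : ℕ} {ep : Fin n → g} {u : Fin n → E} {w : E}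
    (hb : QB C s c ep u w) (al : g) : (al ∈ roots L C.a → 
    ((∃ i j, ∃ σ τ : ℝ, i ≠ j ∧ |σ| = 1 ∧ |τ| = 1 ∧ al = σ • ep i + τ • ep j) ∨
      ∃ i, ∃ σ : ℝ, qm e w ≠ 0 ∧ |σ| = qm e w ∧ al = σ • ep i) ∨ ∀ i, ⟪ep i, al⟫_ℝ = 0) ∧
    ((∃ i j, ∃ σ τ : ℝ, i ≠ j ∧ |σ| = 1 ∧ |τ| = 1 ∧ al = σ • ep i + τ • ep j) ∨
      (∃ i, ∃ σ : ℝ, qm e w ≠ 0 ∧ |σ| = qm e w ∧ al = σ • ep i) → al ∈ roots L C.a) := by
  constructor
  · rintro ⟨hal, hal0, Z, hZ0, hRV⟩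
    by_cases hZ : s.op Z = 0
    · exact Or.inr (qb_ker hb hal hZ0 hRV hZ)
    left
    obtain ⟨lam, b, lam', b', hB, hB', hne, hlam⟩ := T03_entry h hb hal hZ hRV
    rcases hB with ⟨i, σ, rfl, hx⟩ | ⟨rfl, hb1⟩
    · rcases hB' with ⟨j, τ, rfl, hy⟩ | ⟨rfl, hb'⟩
      · have h1 : al = τ • ep j + (-σ) • ep i := by
          rw [neg_smul, ← sub_eq_add_neg, ← hlam, add_sub_cancel_right]
        by_cases hij : j = i
        · subst hij
          right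
          have h2 : τ ≠ σ := by
            rintro rfl
            apply hal0
            rw [h1, ← add_smul, add_neg_cancel, zero_smul]
          have h3 : τ = -σ := by
            rcases (abs_eq (by norm_num : (0 : ℝ) ≤ 1)).1 (T03_abs1 hx) with h4 | h4 <;>
            rcases (abs_eq (by norm_num : (0 : ℝ) ≤ 1)).1 (T03_abs1 hy) with h5 | h5
            · exact absurd (h5.trans h4.symm) h2
            · rw [h4, h5]
            · rw [h4, h5, neg_neg]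
            · exact absurd (h5.trans h4.symm) h2
          subst h3
          obtain ⟨a, ha, hz⟩ := T03_cSV h hx
          have h6 := T03_SV_inj hy hz
          have h7 : ⟪c b, s.op Z b⟫_ℂ ≠ 0 := by
            intro h8
            apply hne
            rw [h6, inner_smul_left, h8, mul_zero]
          have h9 : qm e w = 2 := T03_two h h7
          refine ⟨j, -σ + -σ, by rw [h9]; norm_num, ?_, by rw [h1, add_smul]⟩
          rw [← two_mul, abs_mul, abs_neg, T03_abs1 hx, h9]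
          norm_num
        · left
          refine ⟨j, i, τ, -σ, hij, T03_abs1 hy, ?_, h1⟩
          rw [abs_neg, T03_abs1 hx]
      · right
        have hw : w ≠ 0 := by
          intro hw0
          rw [hb', hw0] at hne
          exact hne (inner_zero_left _)
        have h1 : al = (-σ) • ep i := by
          rw [neg_smul]
          exact eq_neg_of_add_eq_zero_left hlam
        have h2 := T03_w0 h hb hw
        refine ⟨i, -σ, by rw [h2]; norm_num, ?_, h1⟩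
        rw [abs_neg, T03_abs1 hx, h2, Nat.cast_one]
    · have hw : w ≠ 0 := by
        intro hw0
        rw [hb1, hw0] at hne
        exact hne (by rw [map_zero, inner_zero_right])
      have h2 := T03_w0 h hb hw
      rw [add_zero] at hlam
      rcases hB' with ⟨j, τ, rfl, hy⟩ | ⟨rfl, -⟩
      · right
        refine ⟨j, τ, by rw [h2]; norm_num, ?_, hlam⟩
        rw [T03_abs1 hy, h2, Nat.cast_one]
      · exact absurd hlam hal0
  · intro h1
    obtain ⟨h2, h3, A, -, hA0, hRV⟩ := qb_vec h C hb h1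
    exact ⟨h2, h3, A, hA0, hRV⟩

theorem qb_norm (h : TypeQN s c e N) (C : CSub L) {n : ℕ} {ep : Fin n → g} {u : Fin n → E} {w : E}
    (hb : QB C s c ep u w) {i j : Fin n} (hij : i ≠ j) {σ τ : ℝ} (hσ : |σ| = 1) (hτ : |τ| = 1) :
    ∃ N : ℝ, 0 < N ∧ ∀ k, N * ⟪ep k, σ • ep i + τ • ep j⟫_ℝ =
      σ * (if k = i then 1 else 0) + τ * (if k = j then 1 else 0) := by
  obtain ⟨x, hx⟩ := T03_SV_ex c u i hσ
  obtain ⟨y, hy⟩ := T03_SV_ex c u j hτ
  obtain ⟨A, -, hA, hA0, hRV⟩ := T03_ij h hb hij hx hy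
  refine ⟨⟪A, A⟫_ℝ, T03_pos hA0, fun k => ?_⟩
  rw [T03_eig2 h hb hA (C.a.add_mem (T03_mem hb i σ) (T03_mem hb j τ)) hRV (T03_self h hb hx)
    (T03_self h hb hy) (T03_orth h hb hij hx hy) k, T03_sq h hb hx, T03_sq h hb hy]

theorem qb_norm' (h : TypeQN s c e N) (C : CSub L) {n : ℕ} {ep : Fin n → g} {u : Fin n → E} {w : E}
    (hb : QB C s c ep u w) (hm : qm e w ≠ 0) (i : Fin n) :
    ∃ N : ℝ, 0 < N ∧ ∀ k, N * ⟪ep k, ep i⟫_ℝ = if k = i then 1 else 0 := by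
  have hx : T03_SV c u i 1 (u i) := Or.inl ⟨rfl, rfl⟩
  rcases T03_e1 hm with ⟨-, hw, -⟩ | ⟨he, -⟩
  · obtain ⟨A, -, hA, hA0, hRV⟩ := T03_iw h hb hw hx
    have hww : ⟪w, w⟫_ℂ = 1 := by
      rcases hb.ww with h1 | h1
      · exact absurd h1 hw
      · exact h1
    refine ⟨⟪A, A⟫_ℝ, T03_pos hA0, fun k => ?_⟩
    have h2 := T03_eig2 h hb hA (T03_mem hb i 1) hRV (T03_self h hb hx) hww (T03_xw h hb hx) k
    rw [T03_sq h hb hx, hb.cw, sub_self, add_zero, one_smul, one_mul] at h2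
    exact h2
  · obtain ⟨A, -, hA, hA', hA0, hRV⟩ := T03_ii h hb (T03_em h he) hx
    refine ⟨⟪A, A⟫_ℝ / 2, half_pos (T03_pos hA0), fun k => ?_⟩
    have h2 := T03_eig hb (T03_mem hb i (2 * 1)) hRV k
    have h3 : ‖u i‖ ^ 2 = 1 := by
      apply Complex.ofReal_injective
      rw [T03_ns, T03_self h hb hx, Complex.ofReal_one]
    have h5 : ‖c (u i)‖ ^ 2 = 1 := by
      apply Complex.ofReal_injective
      rw [T03_ns, T03_cxx h hb hx, Complex.ofReal_one]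
    have e1 : ‖s.op (L.th A) (u k)‖ ^ 2 = 4 * ‖⟪u i, u k⟫_ℂ‖ ^ 2 := by
      rw [hA', norm_neg, norm_smul, norm_mul, mul_pow, mul_pow, h5, Complex.norm_ofNat]
      ring
    have e2 : ‖s.op A (u k)‖ ^ 2 = 4 * ‖⟪c (u i), u k⟫_ℂ‖ ^ 2 := by
      rw [hA, norm_smul, norm_mul, mul_pow, mul_pow, h3, Complex.norm_ofNat]
      ring
    have e3 := T03_sq h hb hx k
    rw [one_mul] at e3
    rw [e1, e2, mul_one, real_inner_smul_right] at h2
    linarith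

theorem qb_bcd (h : TypeQN s c e N) (C : CSub L) {n : ℕ} {ep : Fin n → g} {u : Fin n → E} {w : E}
    (hb : QB C s c ep u w) (hn : n ≤ 1 ∨ 3 ≤ n ∨ qm e w ≠ 0) : BCD L C.a (qm e w) ep := by
  have horth : ∀ i j, i ≠ j → ⟪ep i, ep j⟫_ℝ = 0 := by
    intro i j hij
    rcases hn with hn | hn | hn
    · exact absurd (Fin.ext (by omega)) hij
    · obtain ⟨k, hk⟩ : ∃ k, k ∉ ({i, j} : Finset (Fin n)) := by
        by_contra hcon
        have h1 : (Finset.univ : Finset (Fin n)) ⊆ {i, j} := fun k _ => by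
          by_contra h2
          exact hcon ⟨k, h2⟩
        have h2 := (Finset.card_le_card h1).trans (Finset.card_le_two)
        rw [Finset.card_univ, Fintype.card_fin] at h2
        omega
      have hki : k ≠ i := fun h1 => hk (by simp [h1])
      have hkj : k ≠ j := fun h1 => hk (by simp [h1])
      obtain ⟨N, hN, h1⟩ := qb_norm h C hb hkj (σ := 1) (τ := 1) abs_one abs_one
      obtain ⟨N', hN', h2⟩ := qb_norm h C hb hkj (σ := -1) (τ := 1) (by rw [abs_neg, abs_one])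
        abs_one
      have h3 := h1 i
      have h4 := h2 i
      simp only [if_neg hki.symm, if_neg hij, mul_zero, add_zero] at h3 h4
      have h5 := (mul_eq_zero.1 h3).resolve_left hN.ne'
      have h6 := (mul_eq_zero.1 h4).resolve_left hN'.ne'
      rw [one_smul, one_smul, inner_add_right] at h5
      rw [neg_smul, one_smul, one_smul, inner_add_right, inner_neg_right] at h6
      linarith
    · obtain ⟨N, hN, h1⟩ := qb_norm' h C hb hn j
      have h2 := h1 i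
      rw [if_neg hij] at h2
      exact (mul_eq_zero.1 h2).resolve_left hN.ne'
  refine ⟨?_, hb.mem, ?_, ?_, horth, fun al => (qb_roots h C hb al).2,
    fun al => (qb_roots h C hb al).1⟩
  · unfold qm
    split_ifs <;> omega
  · intro i h0
    apply T03_ne_i h hb (one_ne_zero (α := ℝ)) (i := i)
    rw [one_smul, h0]
  · intro i j
    by_cases hij : i = j
    · rw [hij]
    · obtain ⟨N, hN, h1⟩ := qb_norm h C hb hij (σ := 1) (τ := 1) abs_one abs_one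
      have h2 := h1 i
      have h3 := h1 j
      have hji : ¬ j = i := fun h4 => hij h4.symm
      simp only [if_true, if_neg hij, one_smul, inner_add_right, horth i j hij, add_zero,
        mul_one, mul_zero] at h2
      simp only [if_true, if_neg hji, one_smul, inner_add_right,
        horth j i hji, zero_add, mul_one, mul_zero] at h3
      exact mul_left_cancel₀ hN.ne' (h2.trans h3.symm)

end

end Pool.Agent.Lib.MP_4322ef_CH
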