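import Pool.Agent.Lib.MP_4322ef_CP.Defs4
import Pool.Agent.Lib.MP_4322ef_CP.T01

/-!
# Ideals of a Lie algebra with several representations

`N k` is the set of the `A` orthogonal to the centre with `s j A = 0` for `j ≠ k`.
-/

set_option autoImplicit false

open scoped InnerProductSpace

namespace Pool.Agent.Lib.MP_4322ef_CH

open Pool.Agent.Lib.MP_4322ef_al.SR

variable {g : Type} [NormedAddCommGroup g] [InnerProductSpace ℝ g] {L : RedLie g}

/-- the centre -/
def cenS (L : RedLie g) : Submodule ℝ g where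
  carrier := {A | ∀ B, L.br A B = 0}
  add_mem' := by
    intro x y hx hy B
    rw [map_add, LinearMap.add_apply, hx B, hy B, add_zero]
  zero_mem' := by
    intro B
    rw [map_zero, LinearMap.zero_apply]
  smul_mem' := by
    intro c x hx B
    rw [map_smul, LinearMap.smul_apply, hx B, smul_zero]

theorem mem_cenS {A : g} : A ∈ cenS L ↔ ∀ B, L.br A B = 0 := Iff.rfl

theorem cenS_th {A : g} (hA : A ∈ cenS L) : L.th A ∈ cenS L := by
  intro B
  have h1 := congrArg L.th (hA (L.th B))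
  rw [L.th_br, L.th_th, map_zero] at h1
  exact h1

theorem cenS_J (J : CStr L) {A : g} (hA : A ∈ cenS L) : J.J A ∈ cenS L := by
  intro B
  rw [J.br, hA B, map_zero]

/-- brackets are orthogonal to the centre -/
theorem cenS_perp {Z : g} (hZ : Z ∈ cenS L) (A B : g) : ⟪Z, L.br A B⟫_ℝ = 0 := by
  rw [real_inner_comm, L.inner_br, br_skew L, hZ (L.th A), neg_zero, inner_zero_right, neg_zero]

/-- a vector orthogonal to all brackets is central -/
theorem cenS_of {Z : g} (hZ : ∀ A B, ⟪Z, L.br A B⟫_ℝ = 0) : Z ∈ cenS L := by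
  intro A
  have h1 := hZ (L.th A) (L.br A Z)
  rw [real_inner_comm, L.inner_br, L.th_th, neg_eq_zero] at h1
  rw [br_skew L, inner_self_eq_zero.1 h1, neg_zero]

section
variable {J : CStr L} {E : Type} [NormedAddCommGroup E] [InnerProductSpace ℂ E]

theorem tr_br [FiniteDimensional ℂ E] (s : CRep J E) (A B : g) :
    LinearMap.trace ℂ E (s.op (L.br A B)) = 0 := by
  have h1 : s.op (L.br A B) = s.op A * s.op B - s.op B * s.op A := by
    ext x
    rw [s.bracket]
    rfl
  rw [h1, map_sub, LinearMap.trace_mul_comm, sub_self]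

/-- the trace vanishes on the orthogonal complement of the centre -/
theorem tr_perp [FiniteDimensional ℝ g] [FiniteDimensional ℂ E] (s : CRep J E) {A : g}
    (hA : ∀ Z ∈ cenS L, ⟪Z, A⟫_ℝ = 0) : LinearMap.trace ℂ E (s.op A) = 0 := by
  let φ : g →ₗ[ℝ] ℝ :=
    { toFun := fun A => (LinearMap.trace ℂ E (s.op A)).re
      map_add' := fun A B => by rw [s.add, map_add, Complex.add_re]
      map_smul' := fun r A => by
        rw [s.smul, map_smul, smul_eq_mul, Complex.re_ofReal_mul, RingHom.id_apply, smul_eq_mul] }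
  have hφ : ∀ A, φ A = (LinearMap.trace ℂ E (s.op A)).re := fun _ => rfl
  have hre : ∀ A, (∀ Z ∈ cenS L, ⟪Z, A⟫_ℝ = 0) → (LinearMap.trace ℂ E (s.op A)).re = 0 := by
    intro A hA
    have : CompleteSpace g := FiniteDimensional.complete ℝ g
    let Z : g := (InnerProductSpace.toDual ℝ g).symm (LinearMap.toContinuousLinearMap φ)
    have hZ : ∀ B, ⟪Z, B⟫_ℝ = φ B := fun B => by
      simp only [Z, InnerProductSpace.toDual_symm_apply]
      rfl
    have h1 : Z ∈ cenS L := cenS_of fun A B => by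
      rw [hZ, hφ, tr_br, Complex.zero_re]
    rw [← hφ, ← hZ]
    exact hA Z h1
  apply Complex.ext
  · exact hre A hA
  · have h1 := hre (J.J A) fun Z hZ => by
      have h2 := J.inner (J.J Z) A
      rw [J.sq, inner_neg_left] at h2
      have h3 := hA _ (cenS_J J hZ)
      rw [h3, neg_eq_zero] at h2
      exact h2
    rw [s.lin, map_smul, smul_eq_mul, Complex.I_mul_re, neg_eq_zero] at h1
    exact h1

/-- an operator which commutes with all operators of trace zero and has trace zero is zero -/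
theorem schurA [FiniteDimensional ℂ E] {R : E →ₗ[ℂ] E}
    (hR : ∀ T : E →ₗ[ℂ] E, LinearMap.trace ℂ E T = 0 → ∀ z, R (T z) = T (R z))
    (htr : LinearMap.trace ℂ E R = 0) : R = 0 := by
  by_cases hE : ∀ x : E, x = 0
  · exact LinearMap.ext fun x => hE _
  push Not at hE
  obtain ⟨x, hx⟩ := hE
  have hd : (Module.finrank ℂ E : ℂ) ≠ 0 := by
    intro h0
    have h1 : Module.finrank ℂ E = 0 := by exact_mod_cast h0
    have h2 := Module.finrank_zero_iff.1 h1
    exact hx (Subsingleton.elim _ _)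
  have hxx : ⟪x, x⟫_ℂ ≠ 0 := inner_self_ne_zero.2 hx
  have h1 : ∀ y, R y = (⟪x, R x⟫_ℂ / ⟪x, x⟫_ℂ) • y := by
    intro y
    let T₀ : E →ₗ[ℂ] E := ((innerSL ℂ x).toLinearMap).smulRight y
    have hT₀ : ∀ z, T₀ z = ⟪x, z⟫_ℂ • y := fun z => rfl
    have h2 := hR (T₀ - (LinearMap.trace ℂ E T₀ / Module.finrank ℂ E) • LinearMap.id) (by
      rw [map_sub, map_smul, LinearMap.trace_id, smul_eq_mul, div_mul_cancel₀ _ hd, sub_self]) x
    simp only [LinearMap.sub_apply, LinearMap.smul_apply, LinearMap.id_apply, map_sub, map_smul,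
      hT₀] at h2
    have h3 : ⟪x, x⟫_ℂ • R y = ⟪x, R x⟫_ℂ • y := sub_left_injective h2
    rw [div_eq_inv_mul, mul_smul, ← h3, smul_smul, inv_mul_cancel₀ hxx, one_smul]
  have h2 : R = (⟪x, R x⟫_ℂ / ⟪x, x⟫_ℂ) • LinearMap.id := LinearMap.ext fun y => h1 y
  rw [h2, map_smul, LinearMap.trace_id, smul_eq_mul] at htr
  rw [h2, (mul_eq_zero.1 htr).resolve_right hd, zero_smul]

/-- a skew operator which commutes with all skew operators is zero -/
theorem schurQ [FiniteDimensional ℂ E] {s : CRep J E} {c : E →ₗ⋆[ℂ] E} {e : ℝ} (h : IsForm s c e)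
    {R : E →ₗ[ℂ] E} (hs : ∀ x y, ⟪c (R x), y⟫_ℂ = -⟪c x, R y⟫_ℂ)
    (hR : ∀ x y z, R (wd c e x y z) = wd c e x y (R z)) : R = 0 := by
  let b := stdOrthonormalBasis ℂ E
  have hd : ((Module.finrank ℂ E : ℂ) - 2 * (e : ℂ)) ≠ 0 := by
    intro h0
    rcases h.sgn with h1 | h1
    · rw [h1] at h0
      apply h.dim h1
      have h2 : (Module.finrank ℂ E : ℂ) = 2 := by
        push_cast at h0
        linear_combination h0
      exact_mod_cast h2
    · rw [h1] at h0
      have h2 : ((Module.finrank ℂ E + 2 : ℕ) : ℂ) = 0 := by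
        push_cast at h0 ⊢
        linear_combination h0
      have h3 : Module.finrank ℂ E + 2 = 0 := by exact_mod_cast h2
      omega
  have h1 : ∀ x z, ⟪c x, z⟫_ℂ * LinearMap.trace ℂ E R =
      ((Module.finrank ℂ E : ℂ) - 2 * e) * ⟪c x, R z⟫_ℂ := by
    intro x z
    have h2 : ∀ k, ⟪c x, z⟫_ℂ * ⟪b k, R (b k)⟫_ℂ - (e : ℂ) * (⟪c (b k), z⟫_ℂ * ⟪b k, R x⟫_ℂ) =
        ⟪c x, R z⟫_ℂ - (e : ℂ) * (⟪c (b k), R z⟫_ℂ * ⟪b k, x⟫_ℂ) := by
      intro k
      have h3 := congrArg (fun v => ⟪b k, v⟫_ℂ) (hR x (b k) z)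
      simp only [wd_apply, map_sub, map_smul, inner_sub_right, inner_smul_right] at h3
      rw [inner_self_eq_norm_sq_to_K, b.norm_eq_one] at h3
      have h4 : ⟪c x, R z⟫_ℂ * (((1 : ℝ) : ℂ) ^ 2) = ⟪c x, R z⟫_ℂ := by norm_num
      have h5 : ⟪c x, R z⟫_ℂ * ((((1 : ℝ) : ℂ)) ^ 2) = ⟪c x, R z⟫_ℂ := h4
      rw [mul_assoc, mul_assoc] at h3
      rw [h3]
      congr 1
    have hc : ∀ v z', ∑ k, ⟪c (b k), z'⟫_ℂ * ⟪b k, v⟫_ℂ = ⟪c v, z'⟫_ℂ := by
      intro v z'
      conv_rhs => rw [← b.sum_repr' v, map_sum, sum_inner]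
      refine Finset.sum_congr rfl fun k _ => ?_
      rw [LinearMap.map_smulₛₗ, inner_smul_left, RingHomCompTriple.comp_apply, RingHom.id_apply,
        mul_comm]
    have h3 := Finset.sum_congr rfl fun k (_ : k ∈ Finset.univ) => h2 k
    rw [Finset.sum_sub_distrib, Finset.sum_sub_distrib, ← Finset.mul_sum, ← Finset.mul_sum,
      ← Finset.mul_sum, hc, hc, Finset.sum_const, Finset.card_univ, Fintype.card_fin,
      ← LinearMap.trace_eq_sum_inner R b, hs, nsmul_eq_mul] at h3
    linear_combination h3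
  have h2 : ∀ z, R z = (LinearMap.trace ℂ E R / ((Module.finrank ℂ E : ℂ) - 2 * e)) • z := by
    intro z
    refine ext_inner_left ℂ fun x => ?_
    have hcc : (e : ℂ) * (e : ℂ) = 1 := by
      rcases h.sgn with h3 | h3 <;> rw [h3] <;> norm_num
    have hx : x = c (((e : ℂ)) • c x) := by
      rw [LinearMap.map_smulₛₗ, Complex.conj_ofReal, h.sq, smul_smul, hcc, one_smul]
    have h3 := h1 (((e : ℂ)) • c x) z
    rw [← hx] at h3
    rw [inner_smul_right, div_mul_eq_mul_div, eq_div_iff hd]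
    linear_combination -h3
  generalize LinearMap.trace ℂ E R / ((Module.finrank ℂ E : ℂ) - 2 * e) = k at h2
  refine LinearMap.ext fun z => ?_
  rw [LinearMap.zero_apply, h2]
  by_cases hz : z = 0
  · rw [hz, smul_zero]
  have h3 := hs z (c z)
  rw [h2, h2, LinearMap.map_smulₛₗ, inner_smul_left, inner_smul_right,
    RingHomCompTriple.comp_apply, RingHom.id_apply, h.iso] at h3
  have h4 : (2 * ⟪z, z⟫_ℂ) * k = 0 := by linear_combination h3
  have h5 : (2 * ⟪z, z⟫_ℂ) ≠ 0 := mul_ne_zero two_ne_zero (inner_self_ne_zero.2 hz)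
  rw [(mul_eq_zero.1 h4).resolve_left h5, zero_smul]

end

end Pool.Agent.Lib.MP_4322ef_CH
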