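import Pool.Agent.Lib.MP_4322ef_CP.U01

/-!
# The ideals of the classical factors
-/

set_option autoImplicit false

open scoped InnerProductSpace

namespace Pool.Agent.Lib.MP_4322ef_CH

open Pool.Agent.Lib.MP_4322ef_al.SR

variable {g : Type} [NormedAddCommGroup g] [InnerProductSpace ℝ g] {L : RedLie g} {J : CStr L}

section
variable {m : ℕ} {E : Fin m → Type} [∀ k, NormedAddCommGroup (E k)]
  [∀ k, InnerProductSpace ℂ (E k)]

/-- the `A` orthogonal to the centre on which the `s j` with `j ≠ k` vanish -/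
def Nid (s : ∀ k, CRep J (E k)) (k : Fin m) : Submodule ℝ g where
  carrier := {A | (∀ j, j ≠ k → (s j).op A = 0) ∧ ∀ Z ∈ cenS L, ⟪Z, A⟫_ℝ = 0}
  add_mem' := by
    rintro x y ⟨hx, hx'⟩ ⟨hy, hy'⟩
    refine ⟨fun j hj => ?_, fun Z hZ => ?_⟩
    · rw [(s j).add, hx j hj, hy j hj, add_zero]
    · rw [inner_add_right, hx' Z hZ, hy' Z hZ, add_zero]
  zero_mem' := ⟨fun j _ => Rep.zero' _, fun Z _ => inner_zero_right _⟩
  smul_mem' := by
    rintro r x ⟨hx, hx'⟩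
    refine ⟨fun j hj => ?_, fun Z hZ => ?_⟩
    · rw [(s j).smul, hx j hj, smul_zero]
    · rw [real_inner_smul_right, hx' Z hZ, mul_zero]

theorem op_th_zero {W : Type} [NormedAddCommGroup W] [InnerProductSpace ℂ W] (t : CRep J W) {A : g}
    (h : t.op A = 0) : t.op (L.th A) = 0 := by
  refine LinearMap.ext fun y => ?_
  refine ext_inner_left ℂ fun x => ?_
  have h1 := t.adj A x y
  rw [h, LinearMap.zero_apply, inner_zero_left] at h1
  rw [LinearMap.zero_apply, inner_zero_right, ← neg_eq_zero, ← h1]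

theorem Nid_ide (s : ∀ k, CRep J (E k)) (hk : ∀ A, (∀ k, (s k).op A = 0) → ∀ B, L.br A B = 0)
    (k : Fin m) : Ide (s k) (Nid s k) := by
  refine ⟨?_, ?_, ?_⟩
  · rintro A ⟨hA, hA'⟩ h0
    have h1 : A ∈ cenS L := hk A fun j => by
      by_cases hj : j = k
      · rw [hj]
        exact h0
      · exact hA j hj
    exact inner_self_eq_zero.1 (hA' A h1)
  · rintro B A ⟨hA, hA'⟩
    refine ⟨fun j hj => ?_, fun Z hZ => cenS_perp hZ B A⟩
    refine LinearMap.ext fun x => ?_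
    rw [(s j).bracket, hA j hj, LinearMap.zero_apply, LinearMap.zero_apply, map_zero, sub_zero]
  · rintro A ⟨hA, hA'⟩
    refine ⟨fun j hj => op_th_zero (s j) (hA j hj), fun Z hZ => ?_⟩
    have h1 := hA' _ (cenS_th hZ)
    rw [← L.inner_th, L.th_th] at h1
    exact h1

variable [FiniteDimensional ℝ g] [∀ k, FiniteDimensional ℂ (E k)]

/-- the type of the factor `k` -/
def FacType (s : ∀ k, CRep J (E k)) (k : Fin m) : Prop :=
  (∀ T : E k →ₗ[ℂ] E k, LinearMap.trace ℂ (E k) T = 0 →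
      ∃ A, (s k).op A = T ∧ ∀ j, j ≠ k → (s j).op A = 0) ∨
    ∃ c e, IsForm (s k) c e ∧ ∀ T : E k →ₗ[ℂ] E k, (∀ x y, ⟪c (T x), y⟫_ℂ = -⟪c x, T y⟫_ℂ) →
      ∃ A, (s k).op A = T ∧ ∀ j, j ≠ k → (s j).op A = 0

theorem wd_skew {W : Type} [NormedAddCommGroup W] [InnerProductSpace ℂ W] {t : CRep J W}
    {c : W →ₗ⋆[ℂ] W} {e : ℝ} (h : IsForm t c e) (x y z z' : W) :
    ⟪c (wd c e x y z), z'⟫_ℂ = -⟪c z, wd c e x y z'⟫_ℂ := by
  have hee : (e : ℂ) * (e : ℂ) = 1 := by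
    rcases h.sgn with h | h <;> rw [h] <;> norm_num
  have hsy : ∀ x y : W, ⟪c y, x⟫_ℂ = (e : ℂ) * ⟪c x, y⟫_ℂ := by
    intro x y
    have h1 := h.iso y (c x)
    rw [h.sq, inner_smul_right] at h1
    rw [← h1, ← mul_assoc, hee, one_mul]
  rw [wd_apply, wd_apply, map_sub, LinearMap.map_smulₛₗ, LinearMap.map_smulₛₗ, inner_sub_left,
    inner_smul_left, inner_smul_left, inner_sub_right, inner_smul_right, inner_smul_right,
    RingHom.map_mul, Complex.conj_ofReal, RingHomCompTriple.comp_apply, RingHom.id_apply, map_mul,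
    RingHomCompTriple.comp_apply, RingHom.id_apply, Complex.conj_ofReal, hsy x z, hsy y z]
  linear_combination (-(⟪c x, z⟫_ℂ * ⟪c y, z'⟫_ℂ)) * hee

theorem cen_comm {W : Type} [NormedAddCommGroup W] [InnerProductSpace ℂ W] (t : CRep J W) {Z : g}
    (hZ : Z ∈ cenS L) (B : g) (x : W) : t.op Z (t.op B x) = t.op B (t.op Z x) := by
  have h1 := t.bracket Z B x
  rw [hZ B, Rep.zero', LinearMap.zero_apply] at h1
  exact (sub_eq_zero.1 h1.symm)

/-- a central element acts by zero if its sum with a vector orthogonal to the centre acts with trace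
zero -/
theorem fac_cenA {W : Type} [NormedAddCommGroup W] [InnerProductSpace ℂ W]
    [FiniteDimensional ℂ W] (t : CRep J W)
    (hf : ∀ T : W →ₗ[ℂ] W, LinearMap.trace ℂ W T = 0 → ∃ A, t.op A = T) {Z A : g}
    (hZ : Z ∈ cenS L) (hA : ∀ Z ∈ cenS L, ⟪Z, A⟫_ℝ = 0)
    (htr : LinearMap.trace ℂ W (t.op (Z + A)) = 0) : t.op Z = 0 := by
  refine schurA (fun T hT z => ?_) ?_
  · obtain ⟨B, hB⟩ := hf T hT
    rw [← hB]
    exact cen_comm t hZ B z
  · rw [t.add, map_add, tr_perp t hA, add_zero] at htr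
    exact htr

theorem fac_cenQ {W : Type} [NormedAddCommGroup W] [InnerProductSpace ℂ W]
    [FiniteDimensional ℂ W] {t : CRep J W} {c : W →ₗ⋆[ℂ] W} {e : ℝ} (hc : IsForm t c e)
    (hf : ∀ T : W →ₗ[ℂ] W, (∀ x y, ⟪c (T x), y⟫_ℂ = -⟪c x, T y⟫_ℂ) → ∃ A, t.op A = T) {Z : g}
    (hZ : Z ∈ cenS L) : t.op Z = 0 := by
  refine schurQ hc (hc.inv Z) fun x y z => ?_
  obtain ⟨B, hB⟩ := hf (wd c e x y) (wd_skew hc x y)
  rw [← hB]
  exact cen_comm t hZ B z

/-- the part orthogonal to the centre -/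
theorem fac_lift (s : ∀ k, CRep J (E k)) (hf : ∀ k, FacType s k) (k : Fin m) {A : g}
    (hA : ∀ j, j ≠ k → (s j).op A = 0)
    (h0 : ∀ Z ∈ cenS L, ∀ A', (∀ Z ∈ cenS L, ⟪Z, A'⟫_ℝ = 0) → A = Z + A' → (s k).op Z = 0) :
    ∃ A' ∈ Nid s k, (s k).op A' = (s k).op A := by
  obtain ⟨Z, hZ, A', hA', hsum⟩ := (cenS L).exists_add_mem_mem_orthogonal A
  have hperp : ∀ Z ∈ cenS L, ⟪Z, A'⟫_ℝ = 0 := fun Z hZ =>
    (Submodule.mem_orthogonal _ _).1 hA' Z hZ
  have h1 : ∀ j, (s j).op Z = 0 := by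
    intro j
    by_cases hj : j = k
    · subst hj
      exact h0 Z hZ A' hperp hsum
    · rcases hf j with hf | ⟨c, e, hc, hf⟩
      · refine fac_cenA (s j) (fun T hT => (hf T hT).imp fun _ h => h.1) hZ hperp ?_
        rw [← hsum, hA j hj, map_zero]
      · exact fac_cenQ hc (fun T hT => (hf T hT).imp fun _ h => h.1) hZ
  have h2 : ∀ j, (s j).op A' = (s j).op A := by
    intro j
    rw [hsum, (s j).add, h1, zero_add]
  exact ⟨A', ⟨fun j hj => by rw [h2, hA j hj], hperp⟩, h2 k⟩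

/-- each factor is of type `A` or of type `B`, `C`, `D` -/
theorem fac_type (s : ∀ k, CRep J (E k)) (hk : ∀ A, (∀ k, (s k).op A = 0) → ∀ B, L.br A B = 0)
    (hf : ∀ k, FacType s k) (k : Fin m) : TypeAN (s k) (Nid s k) ∨
      ∃ c e, TypeQN (s k) c e (Nid s k) := by
  rcases hf k with h | ⟨c, e, hc, h⟩
  · refine Or.inl ⟨Nid_ide s hk k, fun T hT => ?_⟩
    obtain ⟨A, hA, hA'⟩ := h T hT
    obtain ⟨A', hN, h1⟩ := fac_lift s hf k hA' fun Z hZ B hB hsum =>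
      fac_cenA (s k) (fun T hT => (h T hT).imp fun _ h => h.1) hZ hB (by rw [← hsum, hA, hT])
    exact ⟨A', hN, by rw [h1, hA]⟩
  · refine Or.inr ⟨c, e, Nid_ide s hk k, hc.sgn, hc.sq, hc.iso, hc.inv, fun T hT => ?_⟩
    obtain ⟨A, hA, hA'⟩ := h T hT
    obtain ⟨A', hN, h1⟩ := fac_lift s hf k hA' fun Z hZ B hB hsum =>
      fac_cenQ hc (fun T hT => (h T hT).imp fun _ h => h.1) hZ
    exact ⟨A', hN, by rw [h1, hA]⟩

end

end Pool.Agent.Lib.MP_4322ef_CH
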