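import Pool.Agent.Lib.MP_4322ef_CP.U02
import Pool.Agent.Lib.MP_4322ef_CP.T08

/-!
# Lie algebras with several classical factors; the final theorem
-/

set_option autoImplicit false

open scoped InnerProductSpace

namespace Pool.Agent.Lib.MP_4322ef_CH

open Pool.Agent.Lib.MP_4322ef_al.SR

variable {g : Type} [NormedAddCommGroup g] [InnerProductSpace ℝ g] {L : RedLie g} {J : CStr L}

section
variable {E : Type} [NormedAddCommGroup E] [InnerProductSpace ℂ E]

/-- the weights are orthogonal to the roots whose root vectors act by zero -/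
theorem ker_orth (s : CRep J E) (C : CSub L) {al Z lam : g} {v : E} (hal : al ∈ C.a)
    (hZ0 : Z ≠ 0) (hZ : RV L C.a al Z) (h0 : s.op Z = 0) (hv0 : v ≠ 0) (hv : WV s C.a lam v) :
    ⟪lam, al⟫_ℝ = 0 := by
  have h3 := s.bracket Z (L.th Z) v
  rw [br_th_root C hal hZ, Rep.neg', s.smul, h0, LinearMap.neg_apply, LinearMap.smul_apply,
    hv al hal, LinearMap.zero_apply, LinearMap.zero_apply, map_zero, sub_zero,
    neg_eq_zero, smul_smul] at h3
  rcases smul_eq_zero.1 h3 with h4 | h4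
  · rcases mul_eq_zero.1 h4 with h5 | h5
    · have h6 : ⟪Z, Z⟫_ℝ = 0 := by exact_mod_cast h5
      exact absurd (inner_self_eq_zero.1 h6) hZ0
    · exact_mod_cast h5
  · exact absurd h4 hv0

/-- if a root vector does not act by zero then some weight is not orthogonal to the root -/
theorem op_seen [FiniteDimensional ℝ g] [FiniteDimensional ℂ E] (s : CRep J E) (C : CSub L)
    {al Z : g} (hal : al ∈ C.a) (hal0 : al ≠ 0) (hZ : RV L C.a al Z) (h : s.op Z ≠ 0) :
    ∃ lam, IsW s C.a lam ∧ ⟪lam, al⟫_ℝ ≠ 0 := by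
  by_contra hcon
  push Not at hcon
  apply h
  refine LinearMap.ext fun x => ?_
  have hle : Submodule.span ℂ {v | ∃ lam ∈ C.a, WV s C.a lam v} ≤ LinearMap.ker (s.op Z) := by
    rw [Submodule.span_le]
    rintro v ⟨lam, hlam, hv⟩
    rw [SetLike.mem_coe, LinearMap.mem_ker]
    by_contra hne
    have hv0 : v ≠ 0 := by
      rintro rfl
      exact hne (map_zero _)
    have h1 := hcon lam ⟨hlam, v, hv0, hv⟩
    have h2 := hcon (al + lam) ⟨C.a.add_mem hal hlam, _, hne, wt_shift s C hZ hv⟩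
    rw [inner_add_left, h1, add_zero] at h2
    exact hal0 (inner_self_eq_zero.1 h2)
  exact LinearMap.mem_ker.1 (hle (wt_span s C x))

/-- what is needed of one factor: the weights `ep i` see exactly the roots of the factor -/
structure Fct (C : CSub L) (s : CRep J E) (N : Submodule ℝ g) {n : ℕ} (ep : Fin n → g)
    (P : g → Prop) : Prop where
  vec : ∀ al ∈ roots L C.a, (∃ i, ⟪ep i, al⟫_ℝ ≠ 0) → ∃ A ∈ N, A ≠ 0 ∧ RV L C.a al A
  ker : ∀ al ∈ C.a, ∀ Z, Z ≠ 0 → RV L C.a al Z → s.op Z = 0 → ∀ i, ⟪ep i, al⟫_ℝ = 0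
  seen : ∀ al ∈ roots L C.a, ∀ Z, RV L C.a al Z → s.op Z ≠ 0 → ∃ i, ⟪ep i, al⟫_ℝ ≠ 0
  gen : ∀ H, Reg L C.a H → ∃ S : Finset g, GenR L C.a ep H S ∧ ∀ y ∈ S, P y

variable [FiniteDimensional ℝ g] [FiniteDimensional ℂ E]

theorem fctA {X : Type} [NormedAddCommGroup X] [InnerProductSpace ℂ X] (op : g → X →ₗ[ℂ] X)
    (V₀ : Submodule ℂ X) (mu : g) (C : CSub L) (s : CRep J E) {N : Submodule ℝ g}
    (hs : TypeAN s N) : ∃ (n : ℕ) (ep : Fin n → g), Fct C s N ep (Good J C.a op V₀ mu) := by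
  obtain ⟨n, e, ep, h, hw, hvec⟩ := typeA_weights C s hs
  have hne : ∀ i, e i ≠ 0 := by
    intro i h0
    have h1 := e.norm_eq_one i
    rw [h0, norm_zero] at h1
    exact zero_ne_one h1
  refine ⟨n, ep, ?_, ?_, ?_, fun H hH => typeA_good op s hs C V₀ mu h hw hH⟩
  · rintro al ha ⟨i, hi⟩
    rcases h.all al ha with ⟨j, k, hjk, rfl⟩ | h1
    · exact hvec j k hjk
    · exact absurd (h1 i) hi
  · intro al hal Z hZ0 hZ h0 i
    exact ker_orth s C hal hZ0 hZ h0 (hne i) (hw i)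
  · rintro al ⟨hal, hal0, -⟩ Z hZ hne0
    obtain ⟨lam, ⟨hlam, v, hv0, hv⟩, h1⟩ := op_seen s C hal hal0 hZ hne0
    by_contra hcon
    push Not at hcon
    apply hv0
    rw [← e.sum_repr' v]
    refine Finset.sum_eq_zero fun i _ => ?_
    rw [wt_orth s C (h.mem i) hlam (hw i) hv, zero_smul]
    intro h2
    rw [← h2] at h1
    exact h1 (hcon i)

theorem fctQ {X : Type} [NormedAddCommGroup X] [InnerProductSpace ℂ X] (r : HC L X)
    {V₀ : Submodule ℂ X} (hV₀ : IsKType L r.op V₀) (C : CSub L) {mu : g}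
    (hmu : IsExt J C.a r.op V₀ mu) {s : CRep J E} {c : E →ₗ⋆[ℂ] E} {e : ℝ} {N : Submodule ℝ g}
    (h : TypeQN s c e N) :
    ∃ (n : ℕ) (ep : Fin n → g), Fct C s N ep (Good J C.a r.op V₀ mu) := by
  obtain ⟨n, ep, u, w, hb⟩ := exists_qb h C
  refine ⟨n, ep, ?_, ?_, ?_, fun H hH => typeQ_good C r hV₀ hmu h hb hH⟩
  · rintro al ha ⟨i, hi⟩
    rcases (qb_roots h C hb al).1 ha with h1 | h1
    · exact (qb_vec h C hb h1).2.2
    · exact absurd (h1 i) hi
  · intro al hal Z hZ0 hZ h0 i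
    exact qb_ker hb hal hZ0 hZ h0 i
  · rintro al ⟨hal, hal0, -⟩ Z hZ hne0
    obtain ⟨lam, hlam, h1⟩ := op_seen s C hal hal0 hZ hne0
    rcases qb_wt h C hb hlam with ⟨h2, -⟩ | ⟨i, σ, -, h2⟩
    · rw [h2, inner_zero_left] at h1
      exact absurd rfl h1
    · refine ⟨i, fun h3 => h1 ?_⟩
      rw [h2, real_inner_smul_left, h3, mul_zero]

end

section
variable {m : ℕ} {E : Fin m → Type} [∀ k, NormedAddCommGroup (E k)]
  [∀ k, InnerProductSpace ℂ (E k)]

/-- assembly -/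
theorem fct_all (s : ∀ k, CRep J (E k)) (hk : ∀ A, (∀ k, (s k).op A = 0) → ∀ B, L.br A B = 0)
    (C : CSub L) {P : g → Prop} {n : Fin m → ℕ} {ep : ∀ k, Fin (n k) → g}
    (hF : ∀ k, Fct C (s k) (Nid s k) (ep k) P) {H : g} (hH : Reg L C.a H) :
    ∃ S : Finset g, Gen L C.a H S ∧ ∀ y ∈ S, P y := by
  classical
  choose S hS hP using fun k => (hF k).gen H hH
  have hex : ∀ al ∈ roots L C.a, ∃ k i, ⟪ep k i, al⟫_ℝ ≠ 0 := by
    intro al ha
    by_contra hcon
    push Not at hcon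
    obtain ⟨hal, hal0, Z, hZ0, hZ⟩ := ha
    have h1 : ∀ k, (s k).op Z = 0 := by
      intro k
      by_contra hne
      obtain ⟨i, hi⟩ := (hF k).seen al ⟨hal, hal0, Z, hZ0, hZ⟩ Z hZ hne
      exact hi (hcon k i)
    have h2 := hZ al hal
    rw [br_skew L, hk Z h1 al, neg_zero] at h2
    rcases smul_eq_zero.1 h2.symm with h3 | h3
    · exact hal0 (inner_self_eq_zero.1 h3)
    · exact hZ0 h3
  have huniq : ∀ al ∈ roots L C.a, ∀ k, (∃ i, ⟪ep k i, al⟫_ℝ ≠ 0) → ∀ l, l ≠ k →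
      ∀ i, ⟪ep l i, al⟫_ℝ = 0 := by
    intro al ha k hk' l hl
    obtain ⟨A, hAN, hA0, hA⟩ := (hF k).vec al ha hk'
    exact (hF l).ker al ha.1 A hA0 hA (hAN.1 l hl)
  refine ⟨Finset.univ.biUnion S, ⟨?_, ?_⟩, ?_⟩
  · intro y hy
    obtain ⟨k, -, hyk⟩ := Finset.mem_biUnion.1 hy
    exact (hS k).1 y hyk
  · intro x hx hd
    choose c hc hcx using fun k => (hS k).2.2 x hx hd
    refine ⟨fun y => ∑ k, if y ∈ S k then c k y else 0, ?_, ?_⟩
    · intro y _
      refine Finset.sum_nonneg fun k _ => ?_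
      by_cases h1 : y ∈ S k
      · rw [if_pos h1]
        exact hc k y h1
      · rw [if_neg h1]
    · have h1 : ∑ y ∈ Finset.univ.biUnion S, (∑ k, if y ∈ S k then c k y else 0) • y =
          ∑ k, ∑ y ∈ S k, c k y • y := by
        have h2 : ∀ y ∈ Finset.univ.biUnion S, (∑ k, if y ∈ S k then c k y else 0) • y =
            ∑ k, if y ∈ S k then c k y • y else 0 := by
          intro y _
          rw [Finset.sum_smul]
          refine Finset.sum_congr rfl fun k _ => ?_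
          rw [ite_smul, zero_smul]
        rw [Finset.sum_congr rfl h2, Finset.sum_comm]
        refine Finset.sum_congr rfl fun k _ => ?_
        rw [← Finset.sum_filter]
        refine Finset.sum_congr ?_ fun _ _ => rfl
        ext y
        rw [Finset.mem_filter]
        exact ⟨fun h => h.2, fun h => ⟨Finset.mem_biUnion.2 ⟨k, Finset.mem_univ k, h⟩, h⟩⟩
      intro al ha
      obtain ⟨k, hk'⟩ := hex al ha
      rw [h1, inner_sub_right, inner_sum, Finset.sum_eq_single k]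
      · rw [← inner_sub_right]
        rcases hcx k al ha with h2 | h2
        · obtain ⟨i, hi⟩ := hk'
          exact absurd (h2 i) hi
        · exact h2
      · intro l _ hl
        rw [inner_sum]
        refine Finset.sum_eq_zero fun y hy => ?_
        rw [real_inner_smul_right, (hS l).2.1 y hy al ha (huniq al ha k hk' l hl), mul_zero]
      · intro h2
        exact absurd (Finset.mem_univ _) h2
  · intro y hy
    obtain ⟨k, -, hyk⟩ := Finset.mem_biUnion.1 hy
    exact hP k y hyk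

end

theorem classical_fund [FiniteDimensional ℝ g] {X : Type} [NormedAddCommGroup X]
    [InnerProductSpace ℂ X] (C : CSub L) (r : HC L X) {V₀ : Submodule ℂ X}
    (hV₀ : IsKType L r.op V₀) {mu : g} (hmu : IsExt J C.a r.op V₀ mu) (hg : ClassicalLie J) :
    FundData J C.a r.op V₀ mu := by
  obtain ⟨m, E, i1, i2, i3, s, hk, hf⟩ := hg
  have hfac : ∀ k, ∃ (n : ℕ) (ep : Fin n → g),
      Fct C (s k) (Nid s k) ep (Good J C.a r.op V₀ mu) := by
    intro k
    rcases fac_type s hk hf k with h | ⟨c, e, h⟩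
    · exact fctA r.op V₀ mu C (s k) h
    · exact fctQ r hV₀ C hmu h
  choose n ep hF using hfac
  exact fun H hH => fct_all s hk C hF hH

theorem final' [FiniteDimensional ℝ g] (J : CStr L) (C : CSub L)
    {X : Type} [NormedAddCommGroup X] [InnerProductSpace ℂ X] (r : HC L X) (B : InvForm r)
    {V₀ : Submodule ℂ X} (hV₀ : IsKType L r.op V₀) {mu nu z : g} (hmu : IsExt J C.a r.op V₀ mu)
    (hnu : nu ∈ C.a) (hX : IsLang J C.a r.op mu nu)
    (hz : z ∈ C.a) (hz0 : ∀ al ∈ roots L C.a, ⟪al, z⟫_ℝ = 0)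
    (hg : ClassicalLie J ∨ FundData J C.a r.op V₀ mu)
    (hin : InHull L C.a (mu - z))
    (hout : ¬(InHull L C.a (mu + nu - z) ∧ InHull L C.a (mu - nu - z))) :
    ∃ V₁ V₂ : Submodule ℂ X, IsKType L r.op V₁ ∧ IsKType L r.op V₂ ∧
      SmallAt J C.a r.op z V₁ ∧ SmallAt J C.a r.op z V₂ ∧
      (∀ v ∈ V₁, v ≠ 0 → 0 < (B.form v v).re) ∧ ∀ v ∈ V₂, v ≠ 0 → (B.form v v).re < 0 :=
  literal_z' J C r B hV₀ hmu hnu hX hz hz0 (hg.elim (classical_fund C r hV₀ hmu) id) hin hout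

end Pool.Agent.Lib.MP_4322ef_CH
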